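import Pool.Agent.Helper5.LP.St

/-!
# Project LP, module A: a number with a prime factor above the square root
-/

namespace Pool.Agent.Helper5.LP

open Finset Filter

/-- dyadic splitting -/
lemma dyadic_A (f : ℕ → ℝ) (a b : ℕ) (hab : a ≤ b) :
    ∑ p ∈ (Ioc (2 ^ a) (2 ^ b)).filter Nat.Prime, f p =
      ∑ i ∈ Ico a b, ∑ p ∈ (Ioc (2 ^ i) (2 * 2 ^ i)).filter Nat.Prime, f p := by
  induction b, hab using Nat.le_induction with
  | base => simp
  | succ b hab ih =>
    rw [Finset.sum_Ico_succ_top hab, ← ih]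
    have h1 : (2 : ℕ) ^ (b + 1) = 2 * 2 ^ b := by ring
    have h2 : (2 : ℕ) ^ a ≤ 2 ^ b := Nat.pow_le_pow_right (by norm_num) hab
    have h3 : (2 : ℕ) ^ b ≤ 2 * 2 ^ b := by omega
    rw [h1, ← Finset.Ioc_union_Ioc_eq_Ioc h2 h3, filter_union, sum_union]
    rw [Finset.disjoint_left]
    intro p hp hp'
    rw [mem_filter, mem_Ioc] at hp hp'
    omega

lemma gauss_A (a b : ℕ) (hab : a ≤ b) :
    ∑ i ∈ Ico a b, ((i : ℝ) + 1) = ((b : ℝ) * (b + 1) - a * (a + 1)) / 2 := by
  induction b, hab using Nat.le_induction with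
  | base => simp
  | succ b hab ih =>
    rw [Finset.sum_Ico_succ_top hab, ih]
    push_cast
    ring

/-- the eventual inequalities -/
lemma event_A (K : ℝ) : ∀ᶠ L : ℝ in atTop, 10000 ≤ L ∧ K ≤ L ∧
    2 ≤ Real.exp (0.002 * L) ∧ K * (1 + L) ^ 3 * L ^ 2 ≤ Real.exp (0.002 * L) ∧
    K * L ^ 2 ≤ Real.exp (0.0006 * L) ∧ 2 * L ≤ Real.exp (0.08 * L) := by
  have h1 : ∀ᶠ L : ℝ in atTop, |K| * (8 * L ^ 5) ≤ Real.exp (0.002 * L) := by
    have := (isLittleO_pow_exp_pos_mul_atTop 5 (b := 0.002) (by norm_num)).bound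
      (c := 1 / (8 * (|K| + 1))) (by positivity)
    filter_upwards [this, eventually_ge_atTop 0] with L h hL
    rw [Real.norm_of_nonneg (by positivity), Real.norm_of_nonneg (by positivity)] at h
    calc |K| * (8 * L ^ 5) ≤ (8 * (|K| + 1)) * L ^ 5 := by
          have : 0 ≤ L ^ 5 := by positivity
          nlinarith
      _ ≤ (8 * (|K| + 1)) * (1 / (8 * (|K| + 1)) * Real.exp (0.002 * L)) :=
          mul_le_mul_of_nonneg_left h (by positivity)
      _ = Real.exp (0.002 * L) := by field_simp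
  have h2 : ∀ᶠ L : ℝ in atTop, |K| * L ^ 2 ≤ Real.exp (0.0006 * L) := by
    have := (isLittleO_pow_exp_pos_mul_atTop 2 (b := 0.0006) (by norm_num)).bound
      (c := 1 / (|K| + 1)) (by positivity)
    filter_upwards [this, eventually_ge_atTop 0] with L h hL
    rw [Real.norm_of_nonneg (by positivity), Real.norm_of_nonneg (by positivity)] at h
    calc |K| * L ^ 2 ≤ (|K| + 1) * L ^ 2 := by
          have : 0 ≤ L ^ 2 := by positivity
          nlinarith
      _ ≤ (|K| + 1) * (1 / (|K| + 1) * Real.exp (0.0006 * L)) :=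
          mul_le_mul_of_nonneg_left h (by positivity)
      _ = Real.exp (0.0006 * L) := by field_simp
  have h3 : ∀ᶠ L : ℝ in atTop, 2 * L ≤ Real.exp (0.08 * L) := by
    have := (isLittleO_pow_exp_pos_mul_atTop 1 (b := 0.08) (by norm_num)).bound
      (c := 1 / 2) (by positivity)
    filter_upwards [this, eventually_ge_atTop 0] with L h hL
    rw [Real.norm_of_nonneg (by positivity), Real.norm_of_nonneg (by positivity), pow_one] at h
    linarith
  filter_upwards [h1, h2, h3, eventually_ge_atTop (10000 : ℝ), eventually_ge_atTop K] with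
    L g1 g2 g3 g4 g5
  refine ⟨g4, g5, ?_, ?_, ?_, g3⟩
  · have := Real.add_one_le_exp (0.002 * L)
    linarith
  · refine le_trans ?_ g1
    have e1 : (1 + L) ^ 3 ≤ (2 * L) ^ 3 := pow_le_pow_left₀ (by linarith) (by linarith) 3
    have e2 : (0 : ℝ) ≤ L ^ 2 := by positivity
    have e3 : (0 : ℝ) ≤ (1 + L) ^ 3 := by positivity
    calc K * (1 + L) ^ 3 * L ^ 2 ≤ |K| * (1 + L) ^ 3 * L ^ 2 := by
          have := le_abs_self K
          gcongr
      _ ≤ |K| * (2 * L) ^ 3 * L ^ 2 := by gcongr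
      _ = |K| * (8 * L ^ 5) := by ring
  · refine le_trans ?_ g2
    have := le_abs_self K
    gcongr

/-- one dyadic block -/
lemma block_A {C : ℝ} (hC : 0 < C)
    (hB : ∀ (x H P N : ℕ) (Δ : ℝ), 2 ≤ N → N ^ 2 ≤ P → 1 ≤ H →
      2 * H ≤ x → 0 < Δ → Δ ≤ 1 →
      ∑ p ∈ (Ioc P (2 * P)).filter Nat.Prime, (cnt x H p : ℝ) ≤
        H * Real.log 2 / Real.log N +
        C * ((H : ℝ) * (N : ℝ) ^ 2 / P + P * Δ * (1 + Real.log N) ^ 3 +
          (N : ℝ) ^ 2 * (√((x : ℝ) / (P * Δ)) + √((P : ℝ) ^ 3 / x))))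
    {x H N : ℕ} {L : ℝ} (hx : (x : ℝ) = Real.exp L) (hL : 10000 ≤ L)
    (h1 : (H : ℝ) ≤ Real.exp (0.42 * L)) (h2 : Real.exp (0.42 * L) ≤ 2 * H)
    (hN1 : (N : ℝ) ≤ Real.exp (0.0642 * L)) (hN2 : Real.exp (0.0642 * L) ≤ 2 * N)
    (c1 : 2 ≤ Real.exp (0.002 * L)) (c2 : 4 * C * (1 + L) ^ 3 * L ^ 2 ≤ Real.exp (0.002 * L))
    (c3 : 40 * C * L ^ 2 ≤ Real.exp (0.0006 * L)) {P : ℕ} (hP0 : H < 2 * P)
    (hP1 : P ^ 2 ≤ x) :
    ∑ p ∈ (Ioc P (2 * P)).filter Nat.Prime, (cnt x H p : ℝ) ≤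
      H * Real.log 2 / (0.0641 * L) + H / L ^ 2 := by
  have hL0 : 0 < L := by linarith
  have hH0 : (0 : ℝ) < H := by
    have := Real.exp_pos (0.42 * L)
    linarith
  have hH1 : 1 ≤ H := by exact_mod_cast hH0
  have hP0' : (H : ℝ) < 2 * P := by exact_mod_cast hP0
  have hP : (0 : ℝ) < P := by linarith
  have hP1' : (P : ℝ) ^ 2 ≤ Real.exp L := by rw [← hx]; exact_mod_cast hP1
  have c4 : 4 ≤ Real.exp (0.004 * L) := by
    have : Real.exp (0.004 * L) = Real.exp (0.002 * L) * Real.exp (0.002 * L) := by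
      rw [← Real.exp_add]; congr 1; ring
    rw [this]
    nlinarith
  have hNn : (N : ℝ) ^ 2 ≤ Real.exp (0.1284 * L) := by
    have : Real.exp (0.1284 * L) = Real.exp (0.0642 * L) ^ 2 := by
      rw [← Real.exp_nat_mul]; congr 1; push_cast; ring
    rw [this]
    exact pow_le_pow_left₀ (Nat.cast_nonneg _) hN1 2
  have hN2' : 2 ≤ N := by
    have e1 : Real.exp (0.004 * L) ≤ Real.exp (0.0642 * L) :=
      Real.exp_le_exp.2 (by linarith)
    have : (2 : ℝ) ≤ N := by linarith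
    exact_mod_cast this
  have hN0 : (0 : ℝ) < N := by
    have : (2 : ℝ) ≤ N := by exact_mod_cast hN2'
    linarith
  have hNP : N ^ 2 ≤ P := by
    have e1 : 4 * Real.exp (0.1284 * L) ≤ Real.exp (0.42 * L) := by
      calc 4 * Real.exp (0.1284 * L) ≤ Real.exp (0.004 * L) * Real.exp (0.1284 * L) :=
            mul_le_mul_of_nonneg_right c4 (Real.exp_pos _).le
        _ = Real.exp (0.004 * L + 0.1284 * L) := (Real.exp_add _ _).symm
        _ ≤ Real.exp (0.42 * L) := Real.exp_le_exp.2 (by linarith)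
    have e2 : ((N ^ 2 : ℕ) : ℝ) ≤ P := by
      push_cast
      linarith
    exact_mod_cast e2
  have h2H : 2 * H ≤ x := by
    have e1 : 2 * Real.exp (0.42 * L) ≤ Real.exp L := by
      calc 2 * Real.exp (0.42 * L) ≤ Real.exp (0.002 * L) * Real.exp (0.42 * L) :=
            mul_le_mul_of_nonneg_right c1 (Real.exp_pos _).le
        _ = Real.exp (0.002 * L + 0.42 * L) := (Real.exp_add _ _).symm
        _ ≤ Real.exp L := Real.exp_le_exp.2 (by linarith)
    have e2 : ((2 * H : ℕ) : ℝ) ≤ x := by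
      push_cast
      rw [hx]
      linarith
    exact_mod_cast e2
  have hlogN : 0.0641 * L ≤ Real.log N := by
    have e1 : Real.exp (0.0642 * L - Real.log 2) ≤ N := by
      rw [Real.exp_sub, Real.exp_log (by norm_num), div_le_iff₀ (by norm_num)]
      linarith
    have e2 := (Real.le_log_iff_exp_le hN0).2 e1
    have := Real.log_two_lt_d9
    linarith
  have hlogN' : Real.log N ≤ L := by
    have e1 := Real.log_le_log hN0 hN1
    rw [Real.log_exp] at e1
    linarith
  have hlogN0 : 0 ≤ Real.log N := by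
    have : 0 ≤ 0.0641 * L := by positivity
    linarith
  set w := Real.exp (0.002 * L) with hw
  have hw0 : 0 < w := Real.exp_pos _
  have hΔ0 : 0 < (H : ℝ) / (P * w) := by positivity
  have hΔ1 : (H : ℝ) / (P * w) ≤ 1 := by
    rw [div_le_one (by positivity)]
    nlinarith
  have hmain := hB x H P N ((H : ℝ) / (P * w)) hN2' hNP hH1 h2H hΔ0 hΔ1
  have hPΔ : (P : ℝ) * ((H : ℝ) / (P * w)) = H / w := by field_simp
  rw [hPΔ] at hmain
  refine hmain.trans (add_le_add ?_ ?_)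
  · exact div_le_div_of_nonneg_left (by positivity) (by positivity) hlogN
  -- the four error terms
  have t1 : (H : ℝ) * (N : ℝ) ^ 2 / P ≤ 2 * Real.exp (0.4194 * L) := by
    rw [div_le_iff₀ hP]
    have e1 : Real.exp (0.1284 * L) ≤ Real.exp (0.4194 * L) := Real.exp_le_exp.2 (by linarith)
    have e2 : (H : ℝ) * (N : ℝ) ^ 2 ≤ (2 * P) * Real.exp (0.4194 * L) :=
      mul_le_mul hP0'.le (hNn.trans e1) (by positivity) (by positivity)
    linarith
  have t2 : (H : ℝ) / w * (1 + Real.log N) ^ 3 ≤ H / w * (1 + L) ^ 3 := by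
    gcongr
  have t3 : √((x : ℝ) / (H / w)) ≤ 2 * Real.exp (0.291 * L) := by
    rw [Real.sqrt_le_iff]
    refine ⟨by positivity, ?_⟩
    rw [div_le_iff₀ (by positivity), hx]
    have e1 : Real.exp L * w = Real.exp (0.582 * L) * Real.exp (0.42 * L) := by
      rw [hw, ← Real.exp_add, ← Real.exp_add]; congr 1; ring
    have e2 : (2 * Real.exp (0.291 * L)) ^ 2 = 4 * Real.exp (0.582 * L) := by
      rw [mul_pow, ← Real.exp_nat_mul]
      congr 1
      · norm_num
      · congr 1; push_cast; ring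
    rw [e2, mul_div_assoc', le_div_iff₀ hw0, e1]
    have := Real.exp_pos (0.582 * L)
    nlinarith
  have t4 : √((P : ℝ) ^ 3 / x) ≤ Real.exp (0.25 * L) := by
    rw [Real.sqrt_le_iff]
    refine ⟨by positivity, ?_⟩
    rw [hx, div_le_iff₀ (Real.exp_pos _)]
    have e1 : (P : ℝ) ≤ Real.exp (0.5 * L) := by
      have : Real.exp L = Real.exp (0.5 * L) ^ 2 := by
        rw [← Real.exp_nat_mul]; congr 1; push_cast; ring
      rw [this] at hP1'
      exact (pow_le_pow_iff_left₀ hP.le (Real.exp_pos _).le (by norm_num)).1 hP1'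
    have e2 : Real.exp (0.25 * L) ^ 2 = Real.exp (0.5 * L) := by
      rw [← Real.exp_nat_mul]; congr 1; push_cast; ring
    rw [e2]
    calc (P : ℝ) ^ 3 = P * P ^ 2 := by ring
      _ ≤ Real.exp (0.5 * L) * Real.exp L :=
        mul_le_mul e1 hP1' (by positivity) (by positivity)
  have t5 : (N : ℝ) ^ 2 * (√((x : ℝ) / (H / w)) + √((P : ℝ) ^ 3 / x)) ≤
      3 * Real.exp (0.4194 * L) := by
    calc (N : ℝ) ^ 2 * (√((x : ℝ) / (H / w)) + √((P : ℝ) ^ 3 / x))
        ≤ Real.exp (0.1284 * L) * (2 * Real.exp (0.291 * L) + Real.exp (0.25 * L)) :=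
          mul_le_mul hNn (add_le_add t3 t4) (by positivity) (by positivity)
      _ = 2 * Real.exp (0.1284 * L + 0.291 * L) + Real.exp (0.1284 * L + 0.25 * L) := by
          rw [Real.exp_add, Real.exp_add]; ring
      _ ≤ 2 * Real.exp (0.4194 * L) + Real.exp (0.4194 * L) := by
          have e1 : Real.exp (0.1284 * L + 0.291 * L) ≤ Real.exp (0.4194 * L) :=
            Real.exp_le_exp.2 (by linarith)
          have e2 : Real.exp (0.1284 * L + 0.25 * L) ≤ Real.exp (0.4194 * L) :=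
            Real.exp_le_exp.2 (by linarith)
          linarith
      _ = 3 * Real.exp (0.4194 * L) := by ring
  have t6 : C * (5 * Real.exp (0.4194 * L)) ≤ H / (4 * L ^ 2) := by
    rw [le_div_iff₀ (by positivity)]
    have e1 : Real.exp (0.42 * L) = Real.exp (0.0006 * L) * Real.exp (0.4194 * L) := by
      rw [← Real.exp_add]; congr 1; ring
    have e2 := mul_le_mul_of_nonneg_right c3 (Real.exp_pos (0.4194 * L)).le
    rw [← e1] at e2
    nlinarith
  have t7 : C * (H / w * (1 + L) ^ 3) ≤ H / (4 * L ^ 2) := by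
    rw [div_mul_eq_mul_div, mul_div_assoc', div_le_div_iff₀ hw0 (by positivity)]
    nlinarith
  calc C * ((H : ℝ) * (N : ℝ) ^ 2 / P + H / w * (1 + Real.log N) ^ 3 +
          (N : ℝ) ^ 2 * (√((x : ℝ) / (H / w)) + √((P : ℝ) ^ 3 / x)))
      ≤ C * (2 * Real.exp (0.4194 * L) + H / w * (1 + L) ^ 3 + 3 * Real.exp (0.4194 * L)) := by
        gcongr
    _ = C * (5 * Real.exp (0.4194 * L)) + C * (H / w * (1 + L) ^ 3) := by ring
    _ ≤ H / (4 * L ^ 2) + H / (4 * L ^ 2) := add_le_add t6 t7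
    _ ≤ H / L ^ 2 := by
        have : (H : ℝ) / (4 * L ^ 2) = H / L ^ 2 / 4 := by field_simp
        rw [this]
        have : 0 ≤ (H : ℝ) / L ^ 2 := by positivity
        linarith

theorem stA (hB : StB) (hQ : StQ) (hM : StM) : StA := by
  obtain ⟨C, hC, hB⟩ := hB
  obtain ⟨Cq, hCq, hQ⟩ := hQ
  have hlim : Tendsto (fun x : ℕ => Real.log (x : ℝ)) atTop atTop :=
    Real.tendsto_log_atTop.comp tendsto_natCast_atTop_atTop
  have hev := hlim.eventually (event_A (40 * C + 2000 * Cq))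
  unfold StA
  filter_upwards [hev, eventually_ge_atTop 2] with x hx hx2
  obtain ⟨hL, hK, c1, c2, c3, c5⟩ := hx
  have hx0 : (0 : ℝ) < x := by
    have : 0 < x := by omega
    exact_mod_cast this
  set L := Real.log (x : ℝ) with hLdef
  have hxL : (x : ℝ) = Real.exp L := (Real.exp_log hx0).symm
  have hL0 : 0 < L := by linarith
  have hh : (x : ℝ) ^ (21 / 50 : ℝ) = Real.exp (0.42 * L) := by
    rw [Real.rpow_def_of_pos hx0]
    congr 1
    rw [← hLdef]
    ring
  rw [hh]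
  set H := ⌊Real.exp (0.42 * L)⌋₊ with hHdef
  have hH1 : (H : ℝ) ≤ Real.exp (0.42 * L) := Nat.floor_le (Real.exp_pos _).le
  have hbig : 4200 ≤ Real.exp (0.42 * L) := by
    have := Real.add_one_le_exp (0.42 * L)
    linarith
  have hH2 : Real.exp (0.42 * L) ≤ 2 * H := by
    have := Nat.lt_floor_add_one (Real.exp (0.42 * L))
    rw [← hHdef] at this
    linarith
  have hH0 : (0 : ℝ) < H := by linarith
  have hHpos : 1 ≤ H := by exact_mod_cast hH0
  by_contra hcon
  push Not at hcon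
  -- `H ^ 2 ≤ x` and `2 * H ≤ x`
  have hHH : H ^ 2 ≤ x := by
    have e1 : (H : ℝ) ^ 2 ≤ x := by
      rw [hxL]
      calc (H : ℝ) ^ 2 ≤ Real.exp (0.42 * L) ^ 2 := pow_le_pow_left₀ hH0.le hH1 2
        _ = Real.exp (0.84 * L) := by
          rw [← Real.exp_nat_mul]; congr 1; push_cast; ring
        _ ≤ Real.exp L := Real.exp_le_exp.2 (by linarith)
    exact_mod_cast e1
  have h2H : 2 * (H : ℝ) ≤ x := by
    have e0 : (2 : ℝ) ≤ H := by linarith
    have e1 : (H : ℝ) ^ 2 ≤ x := by exact_mod_cast hHH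
    nlinarith
  have hHx : H ≤ x := by
    have : (H : ℝ) ≤ x := by linarith
    exact_mod_cast this
  set y := Nat.sqrt x with hy
  have hyx : y ^ 2 ≤ x := Nat.sqrt_le' x
  have hHy : H ≤ y := by
    rw [hy, Nat.le_sqrt']
    exact hHH
  have hmain := hQ x H y hx2 hHpos hHH (by
    intro m hm p hp hpm
    rw [hy, Nat.le_sqrt']
    exact hcon m hm p hp hpm)
  -- the left side
  have hleft : (H : ℝ) * (L - 1) ≤ ∑ m ∈ Ioc (x - H) x, Real.log m := by
    have hcard : (Ioc (x - H) x).card = H := by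
      rw [Nat.card_Ioc]; omega
    have hle : ∀ m ∈ Ioc (x - H) x, L - 1 ≤ Real.log m := by
      intro m hm
      rw [mem_Ioc] at hm
      have e1 : ((x - H : ℕ) : ℝ) ≤ m := by exact_mod_cast hm.1.le
      rw [Nat.cast_sub hHx] at e1
      have e2 : Real.exp (L - 1) ≤ m := by
        rw [Real.exp_sub, ← hxL]
        have : (x : ℝ) / Real.exp 1 ≤ x / 2 := by
          apply div_le_div_of_nonneg_left hx0.le (by norm_num)
          have := Real.add_one_le_exp (1 : ℝ)
          linarith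
        linarith
      have hm0 : (0 : ℝ) < m := lt_of_lt_of_le (Real.exp_pos _) e2
      exact (Real.le_log_iff_exp_le hm0).2 e2
    have := Finset.card_nsmul_le_sum _ _ _ hle
    rw [hcard, nsmul_eq_mul] at this
    exact this
  -- the splitting
  set i0 := Nat.log 2 H with hi0
  set i1 := Nat.log 2 y + 1 with hi1
  have hyne : y ≠ 0 := by omega
  have hHne : H ≠ 0 := by omega
  have hi0a : 2 ^ i0 ≤ H := Nat.pow_log_le_self 2 hHne
  have hi0b : H < 2 ^ (i0 + 1) := Nat.lt_pow_succ_log_self (by norm_num) H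
  have hi1a : 2 ^ (Nat.log 2 y) ≤ y := Nat.pow_log_le_self 2 hyne
  have hi1b : y < 2 ^ i1 := Nat.lt_pow_succ_log_self (by norm_num) y
  have hi01 : i0 ≤ i1 := by
    have : 2 ^ i0 < 2 ^ i1 := hi0a.trans_lt (hHy.trans_lt hi1b)
    exact ((Nat.pow_lt_pow_iff_right (by norm_num)).1 this).le
  have hlogp : ∀ n : ℕ, 0 ≤ (cnt x H n : ℝ) * Real.log n := fun n =>
    mul_nonneg (Nat.cast_nonneg _) (Real.log_natCast_nonneg _)
  have hsplit : ∑ p ∈ (Icc 1 y).filter Nat.Prime, (cnt x H p : ℝ) * Real.log p ≤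
      ∑ p ∈ (Icc 1 H).filter Nat.Prime, (cnt x H p : ℝ) * Real.log p +
      ∑ i ∈ Ico i0 i1, ∑ p ∈ (Ioc (2 ^ i) (2 * 2 ^ i)).filter Nat.Prime,
        (cnt x H p : ℝ) * Real.log p := by
    rw [← dyadic_A _ _ _ hi01]
    have hsub : (Icc 1 y).filter Nat.Prime ⊆
        (Icc 1 H).filter Nat.Prime ∪ (Ioc (2 ^ i0) (2 ^ i1)).filter Nat.Prime := by
      intro p hp
      rw [mem_filter, mem_Icc] at hp
      rw [mem_union, mem_filter, mem_filter, mem_Icc, mem_Ioc]
      rcases le_or_gt p H with h | h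
      · exact Or.inl ⟨⟨hp.1.1, h⟩, hp.2⟩
      · exact Or.inr ⟨⟨hi0a.trans_lt h, (hp.1.2.trans_lt hi1b).le⟩, hp.2⟩
    refine (Finset.sum_le_sum_of_subset_of_nonneg hsub fun n _ _ => hlogp n).trans ?_
    rw [← Finset.sum_union_inter]
    have : 0 ≤ ∑ p ∈ (Icc 1 H).filter Nat.Prime ∩ (Ioc (2 ^ i0) (2 ^ i1)).filter Nat.Prime,
        (cnt x H p : ℝ) * Real.log p := Finset.sum_nonneg fun n _ => hlogp n
    linarith
  -- `N`
  set N := ⌊Real.exp (0.0642 * L)⌋₊ with hNdef
  have hN1 : (N : ℝ) ≤ Real.exp (0.0642 * L) := Nat.floor_le (Real.exp_pos _).le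
  have hN2 : Real.exp (0.0642 * L) ≤ 2 * N := by
    have e1 := Nat.lt_floor_add_one (Real.exp (0.0642 * L))
    have e2 := Real.add_one_le_exp (0.0642 * L)
    rw [← hNdef] at e1
    linarith
  have c2' : 4 * C * (1 + L) ^ 3 * L ^ 2 ≤ Real.exp (0.002 * L) := by
    refine le_trans ?_ c2
    have : 4 * C ≤ 40 * C + 2000 * Cq := by linarith
    gcongr
  have c3' : 40 * C * L ^ 2 ≤ Real.exp (0.0006 * L) := by
    refine le_trans ?_ c3
    have : 40 * C ≤ 40 * C + 2000 * Cq := by linarith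
    gcongr
  set β := (H : ℝ) * Real.log 2 / (0.0641 * L) + H / L ^ 2 with hβ
  have hl2 : (0.69 : ℝ) < Real.log 2 := by
    have := Real.log_two_gt_d9; linarith
  have hl2' : Real.log 2 < 0.7 := by
    have := Real.log_two_lt_d9; linarith
  have hβ0 : 0 ≤ β := by positivity
  have hblock : ∀ i ∈ Ico i0 i1, ∑ p ∈ (Ioc (2 ^ i) (2 * 2 ^ i)).filter Nat.Prime,
      (cnt x H p : ℝ) * Real.log p ≤ (β * Real.log 2) * ((i : ℝ) + 1) := by
    intro i hi
    rw [mem_Ico] at hi
    have g1 : H < 2 * 2 ^ i := by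
      have : 2 ^ (i0 + 1) ≤ 2 ^ (i + 1) := Nat.pow_le_pow_right (by norm_num) (by omega)
      rw [pow_succ 2 i] at this
      omega
    have g2 : (2 ^ i) ^ 2 ≤ x := by
      have e1 : 2 ^ i ≤ y := (Nat.pow_le_pow_right (by norm_num) (by omega)).trans hi1a
      exact (Nat.pow_le_pow_left e1 2).trans hyx
    have g3 := block_A hC hB hxL hL hH1 hH2 hN1 hN2 c1 c2' c3' g1 g2
    calc ∑ p ∈ (Ioc (2 ^ i) (2 * 2 ^ i)).filter Nat.Prime, (cnt x H p : ℝ) * Real.log p
        ≤ ∑ p ∈ (Ioc (2 ^ i) (2 * 2 ^ i)).filter Nat.Prime,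
            (cnt x H p : ℝ) * (((i : ℝ) + 1) * Real.log 2) := by
          apply Finset.sum_le_sum
          intro p hp
          rw [mem_filter, mem_Ioc] at hp
          refine mul_le_mul_of_nonneg_left ?_ (Nat.cast_nonneg _)
          have e1 : (p : ℝ) ≤ 2 ^ (i + 1) := by
            have : p ≤ 2 ^ (i + 1) := by rw [pow_succ]; omega
            exact_mod_cast this
          have e2 : (0 : ℝ) < p := by
            have : 0 < p := hp.2.pos
            exact_mod_cast this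
          have e3 := Real.log_le_log e2 e1
          rw [Real.log_pow] at e3
          push_cast at e3
          exact e3
      _ = (∑ p ∈ (Ioc (2 ^ i) (2 * 2 ^ i)).filter Nat.Prime, (cnt x H p : ℝ)) *
            (((i : ℝ) + 1) * Real.log 2) := by rw [Finset.sum_mul]
      _ ≤ β * (((i : ℝ) + 1) * Real.log 2) :=
          mul_le_mul_of_nonneg_right g3 (by positivity)
      _ = (β * Real.log 2) * ((i : ℝ) + 1) := by ring
  have hsum : ∑ i ∈ Ico i0 i1, ∑ p ∈ (Ioc (2 ^ i) (2 * 2 ^ i)).filter Nat.Prime,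
      (cnt x H p : ℝ) * Real.log p ≤
      (β * Real.log 2) * (((i1 : ℝ) * (i1 + 1) - i0 * (i0 + 1)) / 2) := by
    rw [← gauss_A _ _ hi01, Finset.mul_sum]
    exact Finset.sum_le_sum hblock
  -- bounds for `i1`, `i0`
  have hb1 : (i1 : ℝ) * Real.log 2 ≤ L / 2 + 1 := by
    have e1 : ((2 : ℝ) ^ (Nat.log 2 y)) ^ 2 ≤ Real.exp L := by
      rw [← hxL]
      have : (2 ^ (Nat.log 2 y)) ^ 2 ≤ x := (Nat.pow_le_pow_left hi1a 2).trans hyx
      exact_mod_cast this
    rw [← pow_mul] at e1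
    have e2 := Real.log_le_log (by positivity) e1
    rw [Real.log_exp, Real.log_pow] at e2
    rw [hi1]
    push_cast at e2 ⊢
    linarith
  have hb0 : 0.42 * L - 2 ≤ (i0 : ℝ) * Real.log 2 := by
    have e1 : Real.exp (0.42 * L) ≤ 2 ^ (i0 + 2) := by
      have : H ≤ 2 ^ (i0 + 1) := hi0b.le
      have e2 : (H : ℝ) ≤ 2 ^ (i0 + 1) := by exact_mod_cast this
      rw [pow_succ (2 : ℝ) (i0 + 1)]
      linarith
    have e2 := (Real.le_log_iff_exp_le (by positivity)).2 e1
    rw [Real.log_pow] at e2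
    push_cast at e2
    linarith
  have hGs : Real.log 2 ^ 2 * (((i1 : ℝ) * (i1 + 1) - i0 * (i0 + 1)) / 2) ≤
      0.0368 * L ^ 2 + 1.6 * L := by
    have f1 : ((i1 : ℝ) * Real.log 2) * ((i1 : ℝ) * Real.log 2 + Real.log 2) ≤
        (L / 2 + 1) * (L / 2 + 2) := by
      apply mul_le_mul hb1 (by linarith) (by positivity) (by positivity)
    have f2 : (0.42 * L - 2) * (0.42 * L - 2) ≤
        ((i0 : ℝ) * Real.log 2) * ((i0 : ℝ) * Real.log 2 + Real.log 2) := by
      apply mul_le_mul hb0 (by linarith) (by linarith) (by positivity)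
    have f3 : Real.log 2 ^ 2 * (((i1 : ℝ) * (i1 + 1) - i0 * (i0 + 1)) / 2) =
        (((i1 : ℝ) * Real.log 2) * ((i1 : ℝ) * Real.log 2 + Real.log 2) -
        ((i0 : ℝ) * Real.log 2) * ((i0 : ℝ) * Real.log 2 + Real.log 2)) / 2 := by ring
    rw [f3]
    nlinarith
  set Gs := ((i1 : ℝ) * (i1 + 1) - i0 * (i0 + 1)) / 2 with hGsdef
  -- the total of the blocks
  have htot : (β * Real.log 2) * Gs ≤ H * (0.5742 * L + 26) := by
    have f1 : (β * Real.log 2) * Gs =
        (H / (0.0641 * L)) * (Real.log 2 ^ 2 * Gs) +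
          (H / (L ^ 2 * Real.log 2)) * (Real.log 2 ^ 2 * Gs) := by
      rw [hβ]
      have : Real.log 2 ≠ 0 := by linarith
      field_simp
    rw [f1]
    have f2 : (H / (0.0641 * L)) * (Real.log 2 ^ 2 * Gs) ≤ H * (0.57411 * L + 25) := by
      calc (H / (0.0641 * L)) * (Real.log 2 ^ 2 * Gs)
          ≤ (H / (0.0641 * L)) * (0.0368 * L ^ 2 + 1.6 * L) :=
            mul_le_mul_of_nonneg_left hGs (by positivity)
        _ = H * ((0.0368 * L + 1.6) / 0.0641) := by field_simp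
        _ ≤ H * (0.57411 * L + 25) := by
            apply mul_le_mul_of_nonneg_left _ hH0.le
            rw [div_le_iff₀ (by norm_num)]
            nlinarith
    have f3 : (H / (L ^ 2 * Real.log 2)) * (Real.log 2 ^ 2 * Gs) ≤ H * 1 := by
      calc (H / (L ^ 2 * Real.log 2)) * (Real.log 2 ^ 2 * Gs)
          ≤ (H / (L ^ 2 * Real.log 2)) * (0.0368 * L ^ 2 + 1.6 * L) :=
            mul_le_mul_of_nonneg_left hGs (by positivity)
        _ = H * ((0.0368 * L ^ 2 + 1.6 * L) / (L ^ 2 * Real.log 2)) := by ring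
        _ ≤ H * 1 := by
            apply mul_le_mul_of_nonneg_left _ hH0.le
            rw [div_le_one (by positivity)]
            have : 0.69 * L ^ 2 ≤ L ^ 2 * Real.log 2 := by nlinarith
            nlinarith
    nlinarith
  have hMx := hM x H hHpos hHx
  have hlogH : Real.log H ≤ 0.42 * L := by
    have := Real.log_le_log hH0 hH1
    rwa [Real.log_exp] at this
  have hMx' : (H : ℝ) * (Real.log H + 3) ≤ H * (0.42 * L + 3) := by
    apply mul_le_mul_of_nonneg_left _ hH0.le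
    linarith
  have hx3 : (x : ℝ) ^ (1 / 3 : ℝ) * L ≤ H := by
    have e1 : (x : ℝ) ^ (1 / 3 : ℝ) = Real.exp (L / 3) := by
      rw [Real.rpow_def_of_pos hx0, ← hLdef]
      congr 1; ring
    have e2 : 2 * (Real.exp (L / 3) * L) ≤ Real.exp (0.42 * L) := by
      calc 2 * (Real.exp (L / 3) * L) = Real.exp (L / 3) * (2 * L) := by ring
        _ ≤ Real.exp (L / 3) * Real.exp (0.08 * L) :=
          mul_le_mul_of_nonneg_left c5 (Real.exp_pos _).le
        _ = Real.exp (L / 3 + 0.08 * L) := (Real.exp_add _ _).symm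
        _ ≤ Real.exp (0.42 * L) := Real.exp_le_exp.2 (by linarith)
    rw [e1]
    linarith
  have hq : Cq * ((H : ℝ) + (x : ℝ) ^ (1 / 3 : ℝ) * L) ≤ Cq * (2 * H) := by
    apply mul_le_mul_of_nonneg_left _ hCq.le
    linarith
  have hfinal : (H : ℝ) * (L - 1) ≤ H * (0.42 * L + 3) + H * (0.5742 * L + 26) +
      Cq * (2 * H) := by
    linarith
  have hfin2 : L - 1 ≤ (0.42 * L + 3) + (0.5742 * L + 26) + Cq * 2 := by
    have : (H : ℝ) * (L - 1) ≤ H * ((0.42 * L + 3) + (0.5742 * L + 26) + Cq * 2) := by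
      linarith
    exact le_of_mul_le_mul_left this hH0
  linarith

end Pool.Agent.Helper5.LP
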