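import Pool.Agent.Helper5.LP.St

/-! Module B: sieve bound for a dyadic block of primes. -/

set_option autoImplicit false

namespace Pool.Agent.Helper5.LP

open Finset

private lemma cnt_add (x H k : ℕ) : cnt x H k + (x - H) / k = x / k := by
  have h1 := Nat.Ioc_filter_dvd_card_eq_div x k
  have h2 := Nat.Ioc_filter_dvd_card_eq_div (x - H) k
  rw [← h1, ← h2]
  unfold cnt
  rw [← Finset.card_union_of_disjoint]
  · congr 1
    ext m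
    simp only [mem_union, mem_filter, mem_Ioc]
    constructor
    · rintro (⟨⟨ha, hb⟩, hc⟩ | ⟨⟨ha, hb⟩, hc⟩)
      · exact ⟨⟨by omega, hb⟩, hc⟩
      · exact ⟨⟨ha, by omega⟩, hc⟩
    · rintro ⟨⟨ha, hb⟩, hc⟩
      by_cases h : x - H < m
      · exact Or.inl ⟨⟨h, hb⟩, hc⟩
      · exact Or.inr ⟨⟨ha, by omega⟩, hc⟩
  · rw [Finset.disjoint_left]
    intro m hm hm'
    simp only [mem_filter, mem_Ioc] at hm hm'
    omega

private lemma floor_nat_div (x k : ℕ) : ((⌊(x : ℝ) / (k : ℝ)⌋ : ℤ) : ℝ) = ((x / k : ℕ) : ℝ) := by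
  have h1 : ⌊(x : ℝ) / (k : ℝ)⌋₊ = x / k := Nat.floor_div_eq_div x k
  have h2 : ((⌊(x : ℝ) / (k : ℝ)⌋₊ : ℕ) : ℤ) = ⌊(x : ℝ) / (k : ℝ)⌋ :=
    Int.natCast_floor_eq_floor (by positivity)
  rw [← h2, h1]
  push_cast
  rfl

private lemma cnt_real (x H D j : ℕ) (hH : H ≤ x) :
    (cnt x H (D * j) : ℝ) =
      (((⌊((x : ℝ) / D) / (j : ℝ)⌋ : ℤ) : ℝ) - ((x : ℝ) / D) / (j : ℝ) + 1 / 2) -
      (((⌊(((x : ℝ) - H) / D) / (j : ℝ)⌋ : ℤ) : ℝ) - (((x : ℝ) - H) / D) / (j : ℝ) + 1 / 2) +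
      ((H : ℝ) / D) * (1 / (j : ℝ)) := by
  have h1 : (cnt x H (D * j) : ℝ) + (((x - H) / (D * j) : ℕ) : ℝ) = ((x / (D * j) : ℕ) : ℝ) := by
    exact_mod_cast cnt_add x H (D * j)
  have h2 := floor_nat_div x (D * j)
  have h3 := floor_nat_div (x - H) (D * j)
  have h4 : (x : ℝ) / ((D * j : ℕ) : ℝ) = ((x : ℝ) / D) / (j : ℝ) := by
    push_cast
    rw [div_div]
  have h5 : ((x - H : ℕ) : ℝ) / ((D * j : ℕ) : ℝ) = (((x : ℝ) - H) / D) / (j : ℝ) := by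
    rw [Nat.cast_sub hH]
    push_cast
    rw [div_div]
  rw [h4] at h2
  rw [h5] at h3
  rw [h2, h3]
  have h6 : ((x : ℝ) / D) / (j : ℝ) - (((x : ℝ) - H) / D) / (j : ℝ) =
      ((H : ℝ) / D) * (1 / (j : ℝ)) := by
    ring
  linarith

private lemma oneD (C1 C3 : ℝ) (hC1 : 0 < C1)
    (hFE : ∀ (Y Δ : ℝ) (K K' : ℕ), 0 < Y → 0 < Δ → Δ ≤ 1 → 1 ≤ K → K ≤ K' → K' ≤ 3 * K →
      |∑ j ∈ Ioc K K', ((⌊Y / j⌋ : ℝ) - Y / j + 1 / 2)| ≤
        2 * K * Δ + C1 * (√(Y / (K * Δ)) + √((K : ℝ) ^ 3 / Y)))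
    (hH : ∀ P D : ℕ, 1 ≤ D → D ≤ P →
      |∑ j ∈ Ioc (P / D) (2 * P / D), 1 / (j : ℝ) - Real.log 2| ≤ C3 * D / P)
    (x H P D : ℕ) (Δ : ℝ) (hD : 1 ≤ D) (hDP : D ≤ P) (h1H : 1 ≤ H) (hHx : 2 * H ≤ x)
    (hΔ : 0 < Δ) (hΔ1 : Δ ≤ 1) :
    |∑ j ∈ Ioc (P / D) (2 * P / D), (cnt x H (D * j) : ℝ) - H * Real.log 2 / D| ≤
      4 * P * Δ * (1 / D) +
        (4 * C1 * (√((x : ℝ) / (P * Δ)) + √((P : ℝ) ^ 3 / x)) + C3 * H / P) := by
  have hx1 : 1 ≤ x := by omega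
  have hDr : (1 : ℝ) ≤ D := by exact_mod_cast hD
  have hDP' : (D : ℝ) ≤ P := by exact_mod_cast hDP
  have hPr : (1 : ℝ) ≤ P := hDr.trans hDP'
  have hHr : (1 : ℝ) ≤ H := by exact_mod_cast h1H
  have hHxr : 2 * (H : ℝ) ≤ x := by exact_mod_cast hHx
  have hxr : (0 : ℝ) < x := by linarith
  set K := P / D with hK
  set K' := 2 * P / D with hK'
  have hK1 : 1 ≤ K := (Nat.one_le_div_iff (by omega)).mpr hDP
  have hKK' : K ≤ K' := Nat.div_le_div_right (by omega)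
  have hPlt : P < D * (K + 1) := by
    have := Nat.lt_mul_div_succ P (show 0 < D by omega)
    simpa [Nat.succ_eq_add_one] using this
  have hK'3 : K' ≤ 3 * K := by
    have h1 : K' < 2 * K + 2 := by
      rw [hK', Nat.div_lt_iff_lt_mul (by omega)]
      nlinarith
    omega
  have hKr : (1 : ℝ) ≤ K := by exact_mod_cast hK1
  have hKle : (K : ℝ) ≤ P / D := Nat.cast_div_le
  have hKge : (P : ℝ) / (2 * D) ≤ K := by
    rw [div_le_iff₀ (by positivity)]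
    have h1 : (P : ℝ) < D * (K + 1) := by exact_mod_cast hPlt
    nlinarith
  set Y1 : ℝ := (x : ℝ) / D with hY1
  set Y2 : ℝ := ((x : ℝ) - H) / D with hY2
  have hY1p : 0 < Y1 := by positivity
  have hY2p : 0 < Y2 := div_pos (by linarith) (by linarith)
  have hY21 : Y2 ≤ Y1 := by
    rw [hY1, hY2]
    gcongr
    linarith
  have hY2g : (x : ℝ) / (2 * D) ≤ Y2 := by
    rw [hY2, div_le_div_iff₀ (by positivity) (by positivity)]
    nlinarith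
  have e1 := hFE Y1 Δ K K' hY1p hΔ hΔ1 hK1 hKK' hK'3
  have e2 := hFE Y2 Δ K K' hY2p hΔ hΔ1 hK1 hKK' hK'3
  have e3 := hH P D hD hDP
  rw [← hK, ← hK'] at e3
  have s1 : ∀ Y : ℝ, 0 < Y → Y ≤ Y1 → √(Y / (K * Δ)) ≤ 2 * √((x : ℝ) / (P * Δ)) := by
    intro Y hY hYle
    have h1 : Y / (K * Δ) ≤ 2 ^ 2 * ((x : ℝ) / (P * Δ)) := by
      have h2 : Y / (K * Δ) ≤ Y1 / (P / (2 * D) * Δ) := by
        gcongr
      refine h2.trans ?_
      have h3 : Y1 / (P / (2 * D) * Δ) = 2 * ((x : ℝ) / (P * Δ)) := by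
        rw [hY1]
        field_simp
      rw [h3]
      have h4 : 0 ≤ (x : ℝ) / (P * Δ) := by positivity
      linarith
    have h5 := Real.sqrt_le_sqrt h1
    rwa [Real.sqrt_mul (by norm_num), Real.sqrt_sq (by norm_num)] at h5
  have s2 : ∀ Y : ℝ, (x : ℝ) / (2 * D) ≤ Y → √((K : ℝ) ^ 3 / Y) ≤ 2 * √((P : ℝ) ^ 3 / x) := by
    intro Y hY
    have h1 : (K : ℝ) ^ 3 / Y ≤ 2 ^ 2 * ((P : ℝ) ^ 3 / x) := by
      have h2 : (K : ℝ) ^ 3 / Y ≤ (P / D) ^ 3 / ((x : ℝ) / (2 * D)) := by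
        gcongr
      refine h2.trans ?_
      have h3 : ((P : ℝ) / D) ^ 3 / ((x : ℝ) / (2 * D)) = 2 * ((P : ℝ) ^ 3 / x) * (1 / D ^ 2) := by
        field_simp
      rw [h3]
      have h4 : 0 ≤ (P : ℝ) ^ 3 / x := by positivity
      have h5 : (1 : ℝ) / D ^ 2 ≤ 1 := by
        rw [div_le_one (by positivity)]
        nlinarith
      have h6 : 0 ≤ (1 : ℝ) / D ^ 2 := by positivity
      nlinarith
    have h5 := Real.sqrt_le_sqrt h1
    rwa [Real.sqrt_mul (by norm_num), Real.sqrt_sq (by norm_num)] at h5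
  have hY1g : (x : ℝ) / (2 * D) ≤ Y1 := hY2g.trans hY21
  have t1 : √(Y1 / (K * Δ)) ≤ 2 * √((x : ℝ) / (P * Δ)) := s1 Y1 hY1p le_rfl
  have t2 : √(Y2 / (K * Δ)) ≤ 2 * √((x : ℝ) / (P * Δ)) := s1 Y2 hY2p hY21
  have t3 := s2 Y1 hY1g
  have t4 := s2 Y2 hY2g
  have hKΔ : 2 * (K : ℝ) * Δ ≤ 2 * P * Δ * (1 / D) := by
    have : 2 * (K : ℝ) * Δ ≤ 2 * (P / D) * Δ := by gcongr
    calc 2 * (K : ℝ) * Δ ≤ 2 * (P / D) * Δ := this
      _ = 2 * P * Δ * (1 / D) := by ring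
  have hsum : ∑ j ∈ Ioc K K', (cnt x H (D * j) : ℝ) - H * Real.log 2 / D =
      (∑ j ∈ Ioc K K', ((⌊Y1 / j⌋ : ℝ) - Y1 / j + 1 / 2)) -
      (∑ j ∈ Ioc K K', ((⌊Y2 / j⌋ : ℝ) - Y2 / j + 1 / 2)) +
      ((H : ℝ) / D) * (∑ j ∈ Ioc K K', 1 / (j : ℝ) - Real.log 2) := by
    rw [mul_sub, mul_sum, ← sum_sub_distrib]
    have : ∑ j ∈ Ioc K K', (cnt x H (D * j) : ℝ) =
        ∑ j ∈ Ioc K K', ((((⌊Y1 / j⌋ : ℝ) - Y1 / j + 1 / 2) -
          ((⌊Y2 / j⌋ : ℝ) - Y2 / j + 1 / 2)) + ((H : ℝ) / D) * (1 / (j : ℝ))) := by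
      apply sum_congr rfl
      intro j _
      exact cnt_real x H D j (by omega)
    rw [this, sum_add_distrib]
    ring
  rw [hsum]
  have hlast : |((H : ℝ) / D) * (∑ j ∈ Ioc K K', 1 / (j : ℝ) - Real.log 2)| ≤ C3 * H / P := by
    rw [abs_mul, abs_of_nonneg (by positivity : (0 : ℝ) ≤ (H : ℝ) / D)]
    calc ((H : ℝ) / D) * |∑ j ∈ Ioc K K', 1 / (j : ℝ) - Real.log 2|
        ≤ ((H : ℝ) / D) * (C3 * D / P) := by gcongr
      _ = C3 * H / P := by field_simp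
  set A := ∑ j ∈ Ioc K K', ((⌊Y1 / j⌋ : ℝ) - Y1 / j + 1 / 2)
  set B := ∑ j ∈ Ioc K K', ((⌊Y2 / j⌋ : ℝ) - Y2 / j + 1 / 2)
  set E := ((H : ℝ) / D) * (∑ j ∈ Ioc K K', 1 / (j : ℝ) - Real.log 2)
  have h1 : |A - B + E| ≤ |A| + |B| + |E| :=
    (abs_add_le _ _).trans (by
      have := abs_sub A B
      linarith)
  have h2 : C1 * (√(Y1 / (K * Δ)) + √((K : ℝ) ^ 3 / Y1)) ≤
      C1 * (2 * √((x : ℝ) / (P * Δ)) + 2 * √((P : ℝ) ^ 3 / x)) := by gcongr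
  have h3 : C1 * (√(Y2 / (K * Δ)) + √((K : ℝ) ^ 3 / Y2)) ≤
      C1 * (2 * √((x : ℝ) / (P * Δ)) + 2 * √((P : ℝ) ^ 3 / x)) := by gcongr
  linarith

private lemma sum_mult (P D : ℕ) (hD : 1 ≤ D) (F : ℕ → ℝ) :
    ∑ k ∈ (Ioc P (2 * P)).filter (fun k => D ∣ k), F k =
      ∑ j ∈ Ioc (P / D) (2 * P / D), F (D * j) := by
  symm
  apply sum_bij (fun j _ => D * j)
  · intro j hj
    rw [mem_Ioc] at hj
    rw [mem_filter, mem_Ioc]
    refine ⟨⟨?_, ?_⟩, Dvd.intro j rfl⟩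
    · have := (Nat.div_lt_iff_lt_mul (by omega : 0 < D)).mp hj.1
      rwa [mul_comm] at this
    · have := (Nat.le_div_iff_mul_le (by omega : 0 < D)).mp hj.2
      rwa [mul_comm] at this
  · intro a _ b _ h
    exact Nat.eq_of_mul_eq_mul_left (by omega) h
  · intro k hk
    rw [mem_filter, mem_Ioc] at hk
    obtain ⟨⟨h1, h2⟩, j, rfl⟩ := hk
    refine ⟨j, ?_, rfl⟩
    rw [mem_Ioc]
    constructor
    · rw [Nat.div_lt_iff_lt_mul (by omega)]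
      rwa [mul_comm]
    · rw [Nat.le_div_iff_mul_le (by omega)]
      rwa [mul_comm]
  · intro j _
    rfl

theorem stB (hFE : StFE) (hS : StS) (hL : StL) (hH : StH) : StB := by
  obtain ⟨C1, hC1, hFE⟩ := hFE
  obtain ⟨C3, hC3, hH⟩ := hH
  refine ⟨4 + 4 * C1 + C3, by positivity, ?_⟩
  intro x H P N Δ hN hNP h1H hHx hΔ hΔ1
  obtain ⟨lam, hlam1, hlam, hlamS⟩ := hS N hN
  have hNr : (2 : ℝ) ≤ N := by exact_mod_cast hN
  have hP1 : 1 ≤ P := le_trans (Nat.one_le_pow _ _ (by omega)) hNP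
  have hPr : (1 : ℝ) ≤ P := by exact_mod_cast hP1
  have hxr : (0 : ℝ) < x := by exact_mod_cast (by omega : 0 < x)
  have hHr : (1 : ℝ) ≤ H := by exact_mod_cast h1H
  set R : ℝ := √((x : ℝ) / (P * Δ)) + √((P : ℝ) ^ 3 / x) with hR
  have hR0 : 0 ≤ R := by positivity
  set E0 : ℝ := 4 * C1 * R + C3 * H / P with hE0
  have hE00 : 0 ≤ E0 := by positivity
  have hl2 : 0 ≤ Real.log 2 := Real.log_nonneg (by norm_num)
  have step1 : ∑ p ∈ (Ioc P (2 * P)).filter Nat.Prime, (cnt x H p : ℝ) ≤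
      ∑ k ∈ Ioc P (2 * P), Pool.MR.thet lam N k * (cnt x H k : ℝ) := by
    rw [sum_filter]
    apply sum_le_sum
    intro k hk
    rw [mem_Ioc] at hk
    have hth : 0 ≤ Pool.MR.thet lam N k := by
      unfold Pool.MR.thet
      positivity
    split_ifs with hp
    · rw [Pool.MR.thet_prime lam hlam1 N k (by omega) hp (by nlinarith)]
      rw [one_mul]
    · positivity
  have step2 : ∑ k ∈ Ioc P (2 * P), Pool.MR.thet lam N k * (cnt x H k : ℝ) =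
      ∑ d1 ∈ Icc 1 N, ∑ d2 ∈ Icc 1 N, lam d1 * lam d2 *
        ∑ k ∈ (Ioc P (2 * P)).filter (fun k => Nat.lcm d1 d2 ∣ k), (cnt x H k : ℝ) := by
    have h1 : ∀ k, Pool.MR.thet lam N k * (cnt x H k : ℝ) =
        ∑ d1 ∈ Icc 1 N, ∑ d2 ∈ Icc 1 N,
          (if Nat.lcm d1 d2 ∣ k then lam d1 * lam d2 * (cnt x H k : ℝ) else 0) := by
      intro k
      rw [Pool.MR.thet_eq, sum_mul]
      apply sum_congr rfl
      intro d1 _
      rw [sum_mul]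
      apply sum_congr rfl
      intro d2 _
      rw [ite_mul, zero_mul]
    simp_rw [h1]
    rw [sum_comm]
    apply sum_congr rfl
    intro d1 _
    rw [sum_comm]
    apply sum_congr rfl
    intro d2 _
    rw [mul_sum, sum_filter]
  have step3 : ∀ d1 ∈ Icc 1 N, ∀ d2 ∈ Icc 1 N, lam d1 * lam d2 *
      ∑ k ∈ (Ioc P (2 * P)).filter (fun k => Nat.lcm d1 d2 ∣ k), (cnt x H k : ℝ) ≤
      H * Real.log 2 * (lam d1 * lam d2 / (Nat.lcm d1 d2 : ℝ)) +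
        (4 * P * Δ * (1 / (Nat.lcm d1 d2 : ℝ)) + E0) := by
    intro d1 hd1 d2 hd2
    rw [mem_Icc] at hd1 hd2
    set D := Nat.lcm d1 d2 with hD
    have hD1 : 1 ≤ D := Nat.lcm_pos (by omega) (by omega)
    have hDP : D ≤ P := by
      have h1 : D ≤ d1 * d2 := Nat.le_of_dvd (Nat.mul_pos (by omega) (by omega))
        (Nat.lcm_dvd_mul d1 d2)
      have h2 : d1 * d2 ≤ N * N := Nat.mul_le_mul hd1.2 hd2.2
      nlinarith
    rw [sum_mult P D hD1]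
    have key := oneD C1 C3 hC1 hFE hH x H P D Δ hD1 hDP h1H hHx hΔ hΔ1
    set S := ∑ j ∈ Ioc (P / D) (2 * P / D), (cnt x H (D * j) : ℝ)
    have hab : |lam d1 * lam d2| ≤ 1 := by
      rw [abs_mul]
      exact mul_le_one₀ (hlam d1) (abs_nonneg _) (hlam d2)
    have h1 : lam d1 * lam d2 * S = H * Real.log 2 * (lam d1 * lam d2 / (D : ℝ)) +
        lam d1 * lam d2 * (S - H * Real.log 2 / D) := by ring
    rw [h1]
    have h2 : lam d1 * lam d2 * (S - H * Real.log 2 / D) ≤ |S - H * Real.log 2 / D| := by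
      calc lam d1 * lam d2 * (S - H * Real.log 2 / D)
          ≤ |lam d1 * lam d2 * (S - H * Real.log 2 / D)| := le_abs_self _
        _ = |lam d1 * lam d2| * |S - H * Real.log 2 / D| := abs_mul _ _
        _ ≤ 1 * |S - H * Real.log 2 / D| := by gcongr
        _ = _ := one_mul _
    linarith
  have step4 : ∑ d1 ∈ Icc 1 N, ∑ d2 ∈ Icc 1 N, lam d1 * lam d2 *
        ∑ k ∈ (Ioc P (2 * P)).filter (fun k => Nat.lcm d1 d2 ∣ k), (cnt x H k : ℝ) ≤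
      H * Real.log 2 * (∑ d1 ∈ Icc 1 N, ∑ d2 ∈ Icc 1 N, lam d1 * lam d2 / (Nat.lcm d1 d2 : ℝ)) +
        (4 * P * Δ * (∑ d1 ∈ Icc 1 N, ∑ d2 ∈ Icc 1 N, 1 / (Nat.lcm d1 d2 : ℝ)) +
          (N : ℝ) ^ 2 * E0) := by
    calc _ ≤ ∑ d1 ∈ Icc 1 N, ∑ d2 ∈ Icc 1 N,
          (H * Real.log 2 * (lam d1 * lam d2 / (Nat.lcm d1 d2 : ℝ)) +
            (4 * P * Δ * (1 / (Nat.lcm d1 d2 : ℝ)) + E0)) :=
          sum_le_sum (fun d1 h1 => sum_le_sum (fun d2 h2 => step3 d1 h1 d2 h2))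
      _ = _ := by
          simp_rw [sum_add_distrib, ← mul_sum]
          rw [sum_const, sum_const, Nat.card_Icc]
          simp only [smul_eq_mul, nsmul_eq_mul, Nat.add_sub_cancel]
          ring
  have hlN : 0 < Real.log N := Real.log_pos (by linarith)
  have h5 : H * Real.log 2 * (∑ d1 ∈ Icc 1 N, ∑ d2 ∈ Icc 1 N,
      lam d1 * lam d2 / (Nat.lcm d1 d2 : ℝ)) ≤ H * Real.log 2 / Real.log N := by
    calc _ ≤ H * Real.log 2 * (1 / Real.log N) := by gcongr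
      _ = _ := by ring
  have h6 : 4 * P * Δ * (∑ d1 ∈ Icc 1 N, ∑ d2 ∈ Icc 1 N, 1 / (Nat.lcm d1 d2 : ℝ)) ≤
      4 * P * Δ * (1 + Real.log N) ^ 3 := by
    have := hL N (by omega)
    gcongr
  have hT1 : 0 ≤ (H : ℝ) * (N : ℝ) ^ 2 / P := by positivity
  have hT2 : 0 ≤ (P : ℝ) * Δ * (1 + Real.log N) ^ 3 := by positivity
  have hT3 : 0 ≤ (N : ℝ) ^ 2 * R := by positivity
  have h7 : (N : ℝ) ^ 2 * E0 = 4 * C1 * ((N : ℝ) ^ 2 * R) + C3 * ((H : ℝ) * (N : ℝ) ^ 2 / P) := by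
    rw [hE0]
    ring
  have h8 : 4 * P * Δ * (1 + Real.log N) ^ 3 = 4 * ((P : ℝ) * Δ * (1 + Real.log N) ^ 3) := by ring
  rw [step2] at step1
  have h9 := step1.trans step4
  have h10 : 0 ≤ C1 * ((H : ℝ) * (N : ℝ) ^ 2 / P) := by positivity
  have h11 : 0 ≤ C1 * ((P : ℝ) * Δ * (1 + Real.log N) ^ 3) := by positivity
  have h12 : 0 ≤ C3 * ((P : ℝ) * Δ * (1 + Real.log N) ^ 3) := by positivity
  have h13 : 0 ≤ C3 * ((N : ℝ) ^ 2 * R) := by positivity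
  nlinarith

end Pool.Agent.Helper5.LP
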