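import Pool.Agent.Helper5.LP.St

/-!
# Project LP, module E: second derivative test for `Y / j`
-/

namespace Pool.Agent.Helper5.LP

open Finset

theorem stE : StE := by
  refine ⟨2000, by norm_num, ?_⟩
  intro Y K K' hY hK hKK hK3
  have hKr : (1 : ℝ) ≤ K := by exact_mod_cast hK
  have hK0 : (0 : ℝ) < K := by linarith
  set M := K' - K with hM
  have hM2 : M ≤ 2 * K := by omega
  have hM2r : (M : ℝ) ≤ 2 * K := by exact_mod_cast hM2
  set a : ℕ → ℝ := fun n => Y / ((K : ℝ) + 1 + n) with ha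
  have hsum : ∑ j ∈ Ioc K K', e (Y / j) = ∑ n ∈ range M, e (a n) := by
    have h1 : Ioc K K' = (range M).image (fun n => K + 1 + n) := by
      ext j
      rw [mem_Ioc, mem_image]
      constructor
      · intro h
        exact ⟨j - (K + 1), by rw [mem_range]; omega, by omega⟩
      · rintro ⟨n, hn, rfl⟩
        rw [mem_range] at hn
        omega
    rw [h1, sum_image (by intro x _ y _ h; simpa using h)]
    apply sum_congr rfl
    intro n _
    simp only [ha]
    push_cast
    rfl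
  rw [hsum]
  set lam : ℝ := 2 * Y / (5 * K) ^ 3 with hlam
  have hlam0 : 0 < lam := by positivity
  have hsd : ∀ n < M, lam ≤ a (n + 2) - a (n + 1) - (a (n + 1) - a n) ∧
      a (n + 2) - a (n + 1) - (a (n + 1) - a n) ≤ 125 * lam := by
    intro n hn
    have hnr : (n : ℝ) + 1 ≤ 2 * K := by exact_mod_cast (by omega : n + 1 ≤ 2 * K)
    have hn0 : (0 : ℝ) ≤ n := by positivity
    have hval : a (n + 2) - a (n + 1) - (a (n + 1) - a n)
        = 2 * Y / (((K : ℝ) + 1 + n) * ((K : ℝ) + 2 + n) * ((K : ℝ) + 3 + n)) := by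
      simp only [ha]
      push_cast
      have e1 : (K : ℝ) + 1 + n ≠ 0 := by positivity
      have e2 : (K : ℝ) + 2 + n ≠ 0 := by positivity
      have e3 : (K : ℝ) + 3 + n ≠ 0 := by positivity
      have e2' : (K : ℝ) + 1 + (n + 1) ≠ 0 := by positivity
      have e3' : (K : ℝ) + 1 + (n + 2) ≠ 0 := by positivity
      field_simp
      ring
    rw [hval]
    constructor
    · rw [hlam]
      apply div_le_div_of_nonneg_left (by positivity) (by positivity)
      have b1 : (K : ℝ) + 1 + n ≤ 5 * K := by linarith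
      have b2 : (K : ℝ) + 2 + n ≤ 5 * K := by linarith
      have b3 : (K : ℝ) + 3 + n ≤ 5 * K := by linarith
      calc ((K : ℝ) + 1 + n) * ((K : ℝ) + 2 + n) * ((K : ℝ) + 3 + n)
          ≤ (5 * K) * (5 * K) * (5 * K) := by gcongr
        _ = (5 * K) ^ 3 := by ring
    · have : 125 * lam = 2 * Y / (K : ℝ) ^ 3 := by
        rw [hlam]; field_simp; ring
      rw [this]
      apply div_le_div_of_nonneg_left (by positivity) (by positivity)
      calc (K : ℝ) ^ 3 = K * K * K := by ring
        _ ≤ ((K : ℝ) + 1 + n) * ((K : ℝ) + 2 + n) * ((K : ℝ) + 3 + n) := by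
          gcongr <;> linarith
  have hmain := Pool.MR.second_diff a M lam 125 hlam0 hsd
  have hq1 : 0 ≤ √(Y / K) := Real.sqrt_nonneg _
  have hq2 : 0 ≤ √((K : ℝ) ^ 3 / Y) := Real.sqrt_nonneg _
  rcases le_or_gt lam 1 with hl1 | hl1
  · set r := √lam with hr
    have hr0 : 0 < r := Real.sqrt_pos.2 hlam0
    have hr1 : r ≤ 1 := by rw [hr]; exact Real.sqrt_le_one.2 hl1
    have hrr : r ^ 2 = lam := by rw [hr]; exact Real.sq_sqrt hlam0.le
    -- `r K ≤ √(Y/K)`
    have h1 : r * K ≤ √(Y / K) := by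
      apply Real.le_sqrt_of_sq_le
      rw [mul_pow, hrr, hlam, div_mul_eq_mul_div, div_le_div_iff₀ (by positivity) hK0]
      have : 0 < Y * (K : ℝ) ^ 3 := by positivity
      nlinarith
    -- `1 / r ≤ 8 √(K^3/Y)`
    have h2 : 1 / r ≤ 8 * √((K : ℝ) ^ 3 / Y) := by
      rw [div_le_iff₀ hr0]
      have h3 : 8 * √((K : ℝ) ^ 3 / Y) * r = √(64 * ((K : ℝ) ^ 3 / Y) * lam) := by
        rw [Real.sqrt_mul (by positivity), Real.sqrt_mul (by norm_num), ← hr]
        rw [show √(64 : ℝ) = 8 by rw [show (64 : ℝ) = 8 ^ 2 by norm_num]; exact Real.sqrt_sq (by norm_num)]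
      rw [h3]
      apply Real.le_sqrt_of_sq_le
      have h4 : 64 * ((K : ℝ) ^ 3 / Y) * lam = 128 / 125 := by
        rw [hlam]; field_simp; norm_num
      rw [h4]; norm_num
    calc ‖∑ n ∈ range M, e (a n)‖ ≤ (125 * lam * M + 2) * (5 / r + 1) := hmain
      _ ≤ (125 * lam * M + 2) * (6 / r) := by
          apply mul_le_mul_of_nonneg_left _ (by positivity)
          rw [div_add' _ _ _ hr0.ne', div_le_div_iff_of_pos_right hr0]
          linarith
      _ = 750 * (r * M) + 12 * (1 / r) := by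
          rw [← hrr]; field_simp; ring
      _ ≤ 750 * (r * (2 * K)) + 12 * (8 * √((K : ℝ) ^ 3 / Y)) := by
          gcongr
      _ ≤ 2000 * (√(Y / K) + √((K : ℝ) ^ 3 / Y)) := by nlinarith
  · have h1 : ‖∑ n ∈ range M, e (a n)‖ ≤ M := by
      refine (norm_sum_le _ _).trans ?_
      simp [Pool.MR.norm_e]
    have h2 : (K : ℝ) ≤ √(Y / K) := by
      apply Real.le_sqrt_of_sq_le
      rw [le_div_iff₀ hK0]
      rw [hlam, lt_div_iff₀ (by positivity)] at hl1
      have : (K : ℝ) ^ 2 * K = (K : ℝ) ^ 3 := by ring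
      have h5 : 0 < (K : ℝ) ^ 3 := by positivity
      nlinarith
    nlinarith

end Pool.Agent.Helper5.LP
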