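import Mathlib
import Pool.Agent.Helper58.MR.L2

/-!
# Project LP (MP_49e2dd_nt): integers with a large prime factor in short intervals

Definitions and the interface statements of the modules.
-/

namespace Pool.Agent.Helper5.LP

open Finset Filter

/-- `e x = exp (2 π i x)` (from the library of helper58) -/
noncomputable abbrev e (x : ℝ) : ℂ := Pool.MR.e x

/-- number of multiples of `k` in the interval `(x - H, x]` -/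
def cnt (x H k : ℕ) : ℕ := ((Ioc (x - H) x).filter (fun m => k ∣ m)).card

/-- Module E: second derivative test for `Y / j`. -/
def StE : Prop := ∃ C : ℝ, 0 < C ∧ ∀ (Y : ℝ) (K K' : ℕ), 0 < Y → 1 ≤ K → K ≤ K' → K' ≤ 3 * K →
  ‖∑ j ∈ Ioc K K', e (Y / j)‖ ≤ C * (√(Y / K) + √((K : ℝ) ^ 3 / Y))

/-- Module F: truncated Fourier expansion of the integer part (smoothing over length `Δ`). -/
def StF : Prop := ∀ (s : Finset ℕ) (t : ℕ → ℝ) (Δ : ℝ) (G : ℕ → ℝ), 0 < Δ → Δ ≤ 1 →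
  (∀ h : ℕ, 1 ≤ h → ‖∑ j ∈ s, e (h * t j)‖ ≤ G h) →
  Summable (fun h : ℕ => min (1 / (h : ℝ)) (1 / ((h : ℝ) ^ 2 * Δ)) * G h) →
  |∑ j ∈ s, ((⌊t j⌋ : ℝ) - t j + 1 / 2)| ≤
    s.card * Δ + ∑' h : ℕ, min (1 / (h : ℝ)) (1 / ((h : ℝ) ^ 2 * Δ)) * G h

/-- Module FE: integer parts of `Y / j`. -/
def StFE : Prop := ∃ C : ℝ, 0 < C ∧ ∀ (Y Δ : ℝ) (K K' : ℕ), 0 < Y → 0 < Δ → Δ ≤ 1 → 1 ≤ K →
  K ≤ K' → K' ≤ 3 * K →
  |∑ j ∈ Ioc K K', ((⌊Y / j⌋ : ℝ) - Y / j + 1 / 2)| ≤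
    2 * K * Δ + C * (√(Y / (K * Δ)) + √((K : ℝ) ^ 3 / Y))

/-- Module S1: Selberg's weights are bounded by one. -/
def StS1 : Prop := ∀ N d : ℕ, 1 ≤ N → |Pool.MR.selL N d| ≤ 1

/-- Module S2: lower bound for the Selberg sum. -/
def StS2 : Prop := ∀ N : ℕ, 1 ≤ N → Real.log (N + 1) ≤ Pool.MR.selG N

/-- Module S: Selberg weights. -/
def StS : Prop := ∀ N : ℕ, 2 ≤ N → ∃ lam : ℕ → ℝ, lam 1 = 1 ∧ (∀ d, |lam d| ≤ 1) ∧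
  ∑ d1 ∈ Icc 1 N, ∑ d2 ∈ Icc 1 N, lam d1 * lam d2 / (Nat.lcm d1 d2 : ℝ) ≤ 1 / Real.log N

/-- Module L: sum of reciprocals of least common multiples. -/
def StL : Prop := ∀ N : ℕ, 1 ≤ N →
  ∑ d1 ∈ Icc 1 N, ∑ d2 ∈ Icc 1 N, 1 / (Nat.lcm d1 d2 : ℝ) ≤ (1 + Real.log N) ^ 3

/-- Module H: harmonic sums over dyadic blocks. -/
def StH : Prop := ∃ C : ℝ, 0 < C ∧ ∀ P D : ℕ, 1 ≤ D → D ≤ P →
  |∑ j ∈ Ioc (P / D) (2 * P / D), 1 / (j : ℝ) - Real.log 2| ≤ C * D / P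

/-- Module B: sieve bound for a dyadic block of primes. -/
def StB : Prop := ∃ C : ℝ, 0 < C ∧ ∀ (x H P N : ℕ) (Δ : ℝ), 2 ≤ N → N ^ 2 ≤ P → 1 ≤ H →
  2 * H ≤ x → 0 < Δ → Δ ≤ 1 →
  ∑ p ∈ (Ioc P (2 * P)).filter Nat.Prime, (cnt x H p : ℝ) ≤
    H * Real.log 2 / Real.log N +
    C * ((H : ℝ) * (N : ℝ) ^ 2 / P + P * Δ * (1 + Real.log N) ^ 3 +
      (N : ℝ) ^ 2 * (√((x : ℝ) / (P * Δ)) + √((P : ℝ) ^ 3 / x)))

/-- Module Q: the contribution of higher prime powers. -/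
def StQ : Prop := ∃ C : ℝ, 0 < C ∧ ∀ x H y : ℕ, 2 ≤ x → 1 ≤ H → H ^ 2 ≤ x →
  (∀ m ∈ Ioc (x - H) x, ∀ p : ℕ, p.Prime → p ∣ m → p ≤ y) →
  ∑ m ∈ Ioc (x - H) x, Real.log m ≤
    ∑ p ∈ (Icc 1 y).filter Nat.Prime, (cnt x H p : ℝ) * Real.log p +
    C * (H + (x : ℝ) ^ (1 / 3 : ℝ) * Real.log x)

/-- Module M: small primes. -/
def StM : Prop := ∀ x H : ℕ, 1 ≤ H → H ≤ x →
  ∑ p ∈ (Icc 1 H).filter Nat.Prime, (cnt x H p : ℝ) * Real.log p ≤ H * (Real.log H + 3)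

/-- Module T1: Chebyshev's upper bound with a constant below `log 4`. -/
def StT1 : Prop := ∀ᶠ k : ℕ in atTop, Chebyshev.theta k ≤ 1.25 * k

/-- Module T: large prime factors in long intervals (Sylvester's theorem, asymptotic form). -/
def StT : Prop := ∀ᶠ v : ℕ in atTop, ∀ L : ℕ, v ≤ L ^ 2 → 2 * L < v →
  ∃ p : ℕ, p.Prime ∧ L < p ∧ p ∣ ∏ m ∈ Icc (v - L) v, m

/-- Module A: a number with a prime factor above the square root in every short interval. -/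
def StA : Prop := ∀ᶠ x : ℕ in atTop,
  ∃ m ∈ Ioc (x - ⌊(x : ℝ) ^ (21 / 50 : ℝ)⌋₊) x, ∃ p : ℕ, p.Prime ∧ p ∣ m ∧ x < p ^ 2

end Pool.Agent.Helper5.LP
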