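import Mathlib
import Pool.Agent.Helper5.LP.St

/-!
# Module F: truncated Fourier expansion of the integer part

The integer part is the slope of a convex piecewise linear function whose periodic part is
the second Bernoulli function; one difference step of length `Δ` and the (absolutely
convergent) Fourier series of the Bernoulli function give the inequality.
-/

namespace Pool.Agent.Helper5.LP

open Finset

/-- the periodic quadratic `(fract t ^ 2 - fract t) / 2` -/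
noncomputable def bq (t : ℝ) : ℝ := (Int.fract t ^ 2 - Int.fract t) / 2

theorem bq_key (t : ℝ) :
    t ^ 2 / 2 - t / 2 - bq t = (⌊t⌋ : ℝ) * t - (⌊t⌋ : ℝ) * ((⌊t⌋ : ℝ) + 1) / 2 := by
  have h : Int.fract t = t - ⌊t⌋ := rfl
  unfold bq
  rw [h]; ring

theorem floor_slope (y : ℝ) (n : ℤ) :
    (n : ℝ) * y - (n : ℝ) * ((n : ℝ) + 1) / 2 ≤
      (⌊y⌋ : ℝ) * y - (⌊y⌋ : ℝ) * ((⌊y⌋ : ℝ) + 1) / 2 := by
  have h1 : (⌊y⌋ : ℝ) ≤ y := Int.floor_le y
  have h2 : y < (⌊y⌋ : ℝ) + 1 := Int.lt_floor_add_one y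
  have key : 0 ≤ ((⌊y⌋ : ℝ) - n) * (y - ((⌊y⌋ : ℝ) + n + 1) / 2) := by
    rcases lt_trichotomy ⌊y⌋ n with h | h | h
    · have h3 : (⌊y⌋ : ℝ) + 1 ≤ n := by exact_mod_cast h
      apply mul_nonneg_of_nonpos_of_nonpos
      · linarith
      · linarith
    · rw [h]; simp
    · have h3 : (n : ℝ) + 1 ≤ (⌊y⌋ : ℝ) := by exact_mod_cast h
      apply mul_nonneg
      · linarith
      · linarith
  nlinarith [key]

theorem psi_step (t δ : ℝ) :
    ((⌊t⌋ : ℝ) - t + 1 / 2) * δ ≤ δ ^ 2 / 2 - (bq (t + δ) - bq t) := by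
  have h1 := floor_slope (t + δ) ⌊t⌋
  rw [← bq_key (t + δ)] at h1
  have h2 := bq_key t
  nlinarith [h1, h2]

theorem cos_fract (h : ℕ) (t : ℝ) :
    Real.cos (2 * Real.pi * h * Int.fract t) = Real.cos (2 * Real.pi * h * t) := by
  have h1 : 2 * Real.pi * h * Int.fract t
      = 2 * Real.pi * h * t - ((h * ⌊t⌋ : ℤ) : ℝ) * (2 * Real.pi) := by
    have h0 : Int.fract t = t - ⌊t⌋ := rfl
    rw [h0]; push_cast; ring
  rw [h1, Real.cos_sub_int_mul_two_pi]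

theorem bern_two_eval (x : ℝ) :
    (Polynomial.map (algebraMap ℚ ℝ) (Polynomial.bernoulli (2 * 1))).eval x
      = x ^ 2 - x + 1 / 6 := by
  rw [Polynomial.bernoulli_def]
  simp [Finset.sum_range_succ, Polynomial.eval_finset_sum, bernoulli_one, bernoulli_two,
    Polynomial.map_monomial]
  ring

theorem hasSum_bq (t : ℝ) :
    HasSum (fun h : ℕ => 1 / (2 * Real.pi ^ 2 * (h : ℝ) ^ 2) * Real.cos (2 * Real.pi * h * t))
      (bq t + 1 / 12) := by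
  have hx : Int.fract t ∈ Set.Icc (0 : ℝ) 1 :=
    ⟨Int.fract_nonneg t, (Int.fract_lt_one t).le⟩
  have h1 := hasSum_one_div_nat_pow_mul_cos (k := 1) one_ne_zero hx
  have h2 := HasSum.mul_left (1 / (2 * Real.pi ^ 2)) h1
  have hpi : Real.pi ≠ 0 := Real.pi_ne_zero
  rw [bern_two_eval] at h2
  have e1 : (fun h : ℕ => 1 / (2 * Real.pi ^ 2 * (h : ℝ) ^ 2) * Real.cos (2 * Real.pi * h * t))
      = fun i : ℕ => 1 / (2 * Real.pi ^ 2) *
        (1 / (i : ℝ) ^ (2 * 1) * Real.cos (2 * Real.pi * i * Int.fract t)) := by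
    funext h
    rw [cos_fract]
    rcases Nat.eq_zero_or_pos h with h0 | h0
    · subst h0; simp
    · have : (h : ℝ) ≠ 0 := by positivity
      rw [mul_one 2]
      field_simp
  have e2 : bq t + 1 / 12 = 1 / (2 * Real.pi ^ 2) *
      ((-1) ^ (1 + 1) * (2 * Real.pi) ^ (2 * 1) / 2 / ((2 * 1).factorial : ℝ) *
        (Int.fract t ^ 2 - Int.fract t + 1 / 6)) := by
    unfold bq
    simp [Nat.factorial]
    field_simp
    ring
  rw [e1, e2]
  exact h2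

/-- the `h`-th term of the Fourier series of `∑ bq (t j + δ) - bq (t j)` -/
theorem term_bound (s : Finset ℕ) (t : ℕ → ℝ) (Δ δ : ℝ) (hΔ : 0 < Δ) (hδ : |δ| = Δ) (h : ℕ)
    (Gh : ℝ) (hG : 1 ≤ h → ‖∑ j ∈ s, e (h * t j)‖ ≤ Gh) :
    ‖∑ j ∈ s, (1 / (2 * Real.pi ^ 2 * (h : ℝ) ^ 2) * Real.cos (2 * Real.pi * h * (t j + δ)) -
        1 / (2 * Real.pi ^ 2 * (h : ℝ) ^ 2) * Real.cos (2 * Real.pi * h * (t j)))‖ ≤
      Δ * (min (1 / (h : ℝ)) (1 / ((h : ℝ) ^ 2 * Δ)) * Gh) := by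
  rcases Nat.eq_zero_or_pos h with h0 | h0
  · subst h0; simp
  have hG' := hG h0
  have hh : (0 : ℝ) < h := by exact_mod_cast h0
  have hpi : 0 < Real.pi := Real.pi_pos
  have hcos : ∀ x : ℝ, Real.cos (2 * Real.pi * h * x) = (e (h * x)).re := by
    intro x
    unfold e Pool.MR.e
    rw [Complex.exp_ofReal_mul_I_re]
    congr 1; ring
  have h1 : ∑ j ∈ s, (1 / (2 * Real.pi ^ 2 * (h : ℝ) ^ 2) *
        Real.cos (2 * Real.pi * h * (t j + δ)) -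
        1 / (2 * Real.pi ^ 2 * (h : ℝ) ^ 2) * Real.cos (2 * Real.pi * h * (t j)))
      = 1 / (2 * Real.pi ^ 2 * (h : ℝ) ^ 2) * ((e (h * δ) - 1) * ∑ j ∈ s, e (h * t j)).re := by
    rw [Finset.mul_sum, Complex.re_sum, Finset.mul_sum]
    refine Finset.sum_congr rfl fun j _ => ?_
    rw [hcos, hcos]
    have : e (h * (t j + δ)) = e (h * δ) * e (h * t j) := by
      unfold e
      rw [← Pool.MR.e_add]; congr 1; ring
    rw [this, sub_mul, one_mul, Complex.sub_re]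
    ring
  rw [h1, norm_mul]
  have h2 : ‖(((e (h * δ) - 1) * ∑ j ∈ s, e (h * t j)).re : ℝ)‖ ≤ ‖e (h * δ) - 1‖ * Gh := by
    rw [Real.norm_eq_abs]
    refine (Complex.abs_re_le_norm _).trans ?_
    rw [norm_mul]
    exact mul_le_mul_of_nonneg_left hG' (norm_nonneg _)
  have hG0 : 0 ≤ Gh := (norm_nonneg _).trans hG'
  have h3 : ‖e (h * δ) - 1‖ ≤ 2 := by
    refine (norm_sub_le _ _).trans ?_
    have : ‖e (h * δ)‖ = 1 := Pool.MR.norm_e _
    rw [this, norm_one]; norm_num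
  have h4 : ‖e (h * δ) - 1‖ ≤ 2 * Real.pi * h * Δ := by
    have : ‖Complex.exp (Complex.I * ((2 * Real.pi * (h * δ) : ℝ) : ℂ)) - 1‖ ≤
        ‖(2 * Real.pi * (h * δ) : ℝ)‖ := Real.norm_exp_I_mul_ofReal_sub_one_le
    have e1 : e (h * δ) = Complex.exp (Complex.I * ((2 * Real.pi * (h * δ) : ℝ) : ℂ)) := by
      unfold e Pool.MR.e
      rw [mul_comm]
    rw [e1]
    refine this.trans ?_
    rw [Real.norm_eq_abs, abs_mul, abs_mul, abs_mul, hδ]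
    rw [abs_of_pos hh, abs_of_pos hpi]
    norm_num
    nlinarith
  have h5 : ‖(1 / (2 * Real.pi ^ 2 * (h : ℝ) ^ 2) : ℝ)‖ = 1 / (2 * Real.pi ^ 2 * (h : ℝ) ^ 2) := by
    rw [Real.norm_eq_abs, abs_of_pos (by positivity)]
  rw [h5]
  have hpi1 : 1 ≤ Real.pi := by linarith [Real.pi_gt_three]
  have h6 : 1 / (2 * Real.pi ^ 2 * (h : ℝ) ^ 2) * ‖e (h * δ) - 1‖ ≤
      Δ * min (1 / (h : ℝ)) (1 / ((h : ℝ) ^ 2 * Δ)) := by
    rw [mul_min_of_nonneg _ _ hΔ.le]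
    apply le_min
    · refine (mul_le_mul_of_nonneg_left h4 (by positivity)).trans ?_
      have : 1 / (2 * Real.pi ^ 2 * (h : ℝ) ^ 2) * (2 * Real.pi * h * Δ)
          = Δ * (1 / h) * (1 / Real.pi) := by
        field_simp
      rw [this]
      have h7 : 1 / Real.pi ≤ 1 := by
        rw [div_le_one hpi]; exact hpi1
      have h8 : 0 ≤ Δ * (1 / (h : ℝ)) := by positivity
      nlinarith
    · refine (mul_le_mul_of_nonneg_left h3 (by positivity)).trans ?_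
      have : Δ * (1 / ((h : ℝ) ^ 2 * Δ)) = 1 / (h : ℝ) ^ 2 := by
        field_simp
      rw [this]
      have : 1 / (2 * Real.pi ^ 2 * (h : ℝ) ^ 2) * 2 = 1 / (h : ℝ) ^ 2 * (1 / Real.pi ^ 2) := by
        field_simp
      rw [this]
      have h7 : 1 / Real.pi ^ 2 ≤ 1 := by
        rw [div_le_one (by positivity)]; nlinarith
      have h8 : 0 ≤ 1 / (h : ℝ) ^ 2 := by positivity
      nlinarith
  calc 1 / (2 * Real.pi ^ 2 * (h : ℝ) ^ 2) *
        ‖(((e (h * δ) - 1) * ∑ j ∈ s, e (h * t j)).re : ℝ)‖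
      ≤ 1 / (2 * Real.pi ^ 2 * (h : ℝ) ^ 2) * (‖e (h * δ) - 1‖ * Gh) :=
        mul_le_mul_of_nonneg_left h2 (by positivity)
    _ = (1 / (2 * Real.pi ^ 2 * (h : ℝ) ^ 2) * ‖e (h * δ) - 1‖) * Gh := by ring
    _ ≤ (Δ * min (1 / (h : ℝ)) (1 / ((h : ℝ) ^ 2 * Δ))) * Gh :=
        mul_le_mul_of_nonneg_right h6 hG0
    _ = _ := by ring

theorem diff_bound (s : Finset ℕ) (t : ℕ → ℝ) (Δ δ : ℝ) (G : ℕ → ℝ) (hΔ : 0 < Δ)
    (hδ : |δ| = Δ) (hG : ∀ h : ℕ, 1 ≤ h → ‖∑ j ∈ s, e (h * t j)‖ ≤ G h)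
    (hs : Summable (fun h : ℕ => min (1 / (h : ℝ)) (1 / ((h : ℝ) ^ 2 * Δ)) * G h)) :
    |∑ j ∈ s, (bq (t j + δ) - bq (t j))| ≤
      Δ * ∑' h : ℕ, min (1 / (h : ℝ)) (1 / ((h : ℝ) ^ 2 * Δ)) * G h := by
  have h1 : HasSum (fun h : ℕ => ∑ j ∈ s,
      (1 / (2 * Real.pi ^ 2 * (h : ℝ) ^ 2) * Real.cos (2 * Real.pi * h * (t j + δ)) -
        1 / (2 * Real.pi ^ 2 * (h : ℝ) ^ 2) * Real.cos (2 * Real.pi * h * (t j))))
      (∑ j ∈ s, ((bq (t j + δ) + 1 / 12) - (bq (t j) + 1 / 12))) := by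
    apply hasSum_sum
    intro j _
    exact (hasSum_bq (t j + δ)).sub (hasSum_bq (t j))
  have h2 : ∑ j ∈ s, ((bq (t j + δ) + 1 / 12) - (bq (t j) + 1 / 12))
      = ∑ j ∈ s, (bq (t j + δ) - bq (t j)) :=
    Finset.sum_congr rfl fun j _ => by ring
  rw [h2] at h1
  rw [← h1.tsum_eq, ← Real.norm_eq_abs]
  exact tsum_of_norm_bounded (hs.hasSum.mul_left Δ)
    (fun h => term_bound s t Δ δ hΔ hδ h (G h) (hG h))

theorem stF : StF := by
  intro s t Δ G hΔ _ hG hs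
  set T := ∑' h : ℕ, min (1 / (h : ℝ)) (1 / ((h : ℝ) ^ 2 * Δ)) * G h with hT
  have h1 := diff_bound s t Δ Δ G hΔ (abs_of_pos hΔ) hG hs
  have h2 := diff_bound s t Δ (-Δ) G hΔ (by rw [abs_neg, abs_of_pos hΔ]) hG hs
  rw [← hT] at h1 h2
  have h3 : (∑ j ∈ s, ((⌊t j⌋ : ℝ) - t j + 1 / 2)) * Δ ≤
      s.card * (Δ ^ 2 / 2) - ∑ j ∈ s, (bq (t j + Δ) - bq (t j)) := by
    rw [Finset.sum_mul, ← nsmul_eq_mul, ← Finset.sum_const, ← Finset.sum_sub_distrib]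
    exact Finset.sum_le_sum fun j _ => psi_step (t j) Δ
  have h4 : (∑ j ∈ s, ((⌊t j⌋ : ℝ) - t j + 1 / 2)) * (-Δ) ≤
      s.card * (Δ ^ 2 / 2) - ∑ j ∈ s, (bq (t j + -Δ) - bq (t j)) := by
    rw [Finset.sum_mul, ← nsmul_eq_mul, ← Finset.sum_const, ← Finset.sum_sub_distrib]
    refine Finset.sum_le_sum fun j _ => ?_
    have := psi_step (t j) (-Δ)
    rw [neg_sq] at this
    exact this
  have hc : (0 : ℝ) ≤ s.card := Nat.cast_nonneg _
  have a1 := (abs_le.mp h1).1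
  have a2 := (abs_le.mp h2).1
  rw [abs_le]
  constructor
  · have : (-(s.card * Δ + T)) * Δ ≤ (∑ j ∈ s, ((⌊t j⌋ : ℝ) - t j + 1 / 2)) * Δ := by
      nlinarith [mul_nonneg hc (sq_nonneg Δ)]
    exact le_of_mul_le_mul_right this hΔ
  · have : (∑ j ∈ s, ((⌊t j⌋ : ℝ) - t j + 1 / 2)) * Δ ≤ (s.card * Δ + T) * Δ := by
      nlinarith [mul_nonneg hc (sq_nonneg Δ)]
    exact le_of_mul_le_mul_right this hΔ

end Pool.Agent.Helper5.LP
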