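import Pool.Agent.Helper5.LP.St

namespace Pool.Agent.Helper5.LP

open Finset Filter

namespace FE

/-- the weights -/
noncomputable def ww (Δ : ℝ) (h : ℕ) : ℝ := min (1 / (h : ℝ)) (1 / ((h : ℝ) ^ 2 * Δ))

theorem ww_nonneg {Δ : ℝ} (hΔ : 0 < Δ) (h : ℕ) : 0 ≤ ww Δ h := by
  unfold ww
  exact le_min (by positivity) (by positivity)

/-- the potential -/
noncomputable def UU (δ : ℝ) (h : ℕ) : ℝ := 8 * (√(h : ℝ) / (1 + √(h : ℝ) * δ))

theorem UU_step {δ : ℝ} (hδ : 0 < δ) (h : ℕ) :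
    ww (δ ^ 2) (h + 1) * √((h + 1 : ℕ) : ℝ) ≤ UU δ (h + 1) - UU δ h := by
  set s : ℝ := √((h + 1 : ℕ) : ℝ) with hs
  set r : ℝ := √(h : ℝ) with hr
  have hs2 : s ^ 2 = h + 1 := by
    rw [hs, Real.sq_sqrt (by positivity)]; push_cast; ring
  have hr2 : r ^ 2 = h := by rw [hr, Real.sq_sqrt (by positivity)]
  have hr0 : 0 ≤ r := Real.sqrt_nonneg _
  have hs0 : 0 < s := Real.sqrt_pos.2 (by positivity)
  have hrs : r ≤ s := by
    rw [hr, hs]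
    exact Real.sqrt_le_sqrt (by push_cast; linarith)
  have h1 : (((h + 1 : ℕ)) : ℝ) = s ^ 2 := by rw [hs2]; push_cast; ring
  have hsr : (s - r) * (s + r) = 1 := by
    have : (s - r) * (s + r) = s ^ 2 - r ^ 2 := by ring
    rw [this, hs2, hr2]; ring
  have hsr' : 1 ≤ (s - r) * (2 * s) := by
    rw [← hsr]
    exact mul_le_mul_of_nonneg_left (by linarith) (by linarith)
  have e1 : UU δ (h + 1) - UU δ h = 8 * (s - r) / ((1 + s * δ) * (1 + r * δ)) := by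
    unfold UU
    rw [← hs, ← hr]
    have h2 : 0 < 1 + s * δ := by positivity
    have h3 : 0 < 1 + r * δ := by positivity
    field_simp
    ring
  have e2 : 4 / (s * (1 + s * δ) ^ 2) ≤ 8 * (s - r) / ((1 + s * δ) * (1 + r * δ)) := by
    rw [div_le_div_iff₀ (by positivity) (by positivity)]
    have h3 : 1 + r * δ ≤ 1 + s * δ := by
      have := mul_le_mul_of_nonneg_right hrs hδ.le
      linarith
    have h4 : 0 < 1 + s * δ := by positivity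
    calc 4 * ((1 + s * δ) * (1 + r * δ)) ≤ 4 * ((1 + s * δ) * (1 + s * δ)) := by gcongr
      _ = 4 * 1 * (1 + s * δ) ^ 2 := by ring
      _ ≤ 4 * ((s - r) * (2 * s)) * (1 + s * δ) ^ 2 := by gcongr
      _ = 8 * (s - r) * (s * (1 + s * δ) ^ 2) := by ring
  rw [e1]
  refine le_trans ?_ e2
  unfold ww
  rw [h1]
  rcases le_total (s * δ) 1 with h5 | h5
  · refine (mul_le_mul_of_nonneg_right (min_le_left _ _) hs0.le).trans ?_
    have h6 : 1 / s ^ 2 * s = 4 / (s * 4) := by field_simp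
    rw [h6]
    refine div_le_div_of_nonneg_left (by norm_num) (by positivity) ?_
    refine mul_le_mul_of_nonneg_left ?_ hs0.le
    have : 0 ≤ s * δ := by positivity
    nlinarith
  · refine (mul_le_mul_of_nonneg_right (min_le_right _ _) hs0.le).trans ?_
    have h6 : 1 / ((s ^ 2) ^ 2 * δ ^ 2) * s = 4 / (s * (2 * (s * δ)) ^ 2) := by
      field_simp
      ring
    rw [h6]
    refine div_le_div_of_nonneg_left (by norm_num) (by positivity) ?_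
    refine mul_le_mul_of_nonneg_left ?_ hs0.le
    exact pow_le_pow_left₀ (by positivity) (by linarith) 2

theorem UU_le {δ : ℝ} (hδ : 0 < δ) (h : ℕ) : UU δ h ≤ 8 / δ := by
  unfold UU
  rw [mul_div_assoc', div_le_div_iff₀ (by positivity) hδ]
  nlinarith [Real.sqrt_nonneg (h : ℝ)]

theorem partial_le {δ : ℝ} (hδ : 0 < δ) (n : ℕ) :
    ∑ h ∈ range (n + 1), ww (δ ^ 2) h * √(h : ℝ) ≤ UU δ n := by
  induction n with
  | zero =>
    simp [UU]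
  | succ n ih =>
    rw [sum_range_succ]
    have := UU_step hδ n
    linarith

theorem sum1 {Δ : ℝ} (hΔ : 0 < Δ) :
    Summable (fun h : ℕ => ww Δ h * √(h : ℝ)) ∧ ∑' h : ℕ, ww Δ h * √(h : ℝ) ≤ 8 / √Δ := by
  have hδ : 0 < √Δ := Real.sqrt_pos.2 hΔ
  have hsq : √Δ ^ 2 = Δ := Real.sq_sqrt hΔ.le
  have h0 : ∀ h : ℕ, 0 ≤ ww Δ h * √(h : ℝ) := fun h =>
    mul_nonneg (ww_nonneg hΔ h) (Real.sqrt_nonneg _)
  have h1 : ∀ n : ℕ, ∑ h ∈ range n, ww Δ h * √(h : ℝ) ≤ 8 / √Δ := by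
    intro n
    have h2 := partial_le hδ n
    rw [hsq] at h2
    refine (sum_le_sum_of_subset_of_nonneg (range_mono (Nat.le_succ n))
      fun h _ _ => h0 h).trans (h2.trans (UU_le hδ n))
  exact ⟨summable_of_sum_range_le h0 h1, Real.tsum_le_of_sum_range_le h0 h1⟩

theorem le2 {Δ : ℝ} (h : ℕ) :
    ww Δ h / √(h : ℝ) ≤ 1 / (h : ℝ) ^ (3 / 2 : ℝ) := by
  rcases Nat.eq_zero_or_pos h with rfl | hh
  · simp
  have hh' : (0 : ℝ) < h := by exact_mod_cast hh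
  have h1 : ww Δ h ≤ 1 / (h : ℝ) := min_le_left _ _
  have h2 : (h : ℝ) ^ (3 / 2 : ℝ) = h * √(h : ℝ) := by
    rw [Real.sqrt_eq_rpow, ← Real.rpow_one_add' hh'.le (by norm_num)]
    norm_num
  rw [h2, ← div_div]
  exact div_le_div_of_nonneg_right h1 (Real.sqrt_nonneg _)

end FE

theorem stFE (hE : StE) (hF : StF) : StFE := by
  obtain ⟨C₀, hC₀, hE⟩ := hE
  have hsum2 : Summable (fun h : ℕ => 1 / (h : ℝ) ^ (3 / 2 : ℝ)) :=
    Real.summable_one_div_nat_rpow.2 (by norm_num)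
  set B : ℝ := ∑' h : ℕ, 1 / (h : ℝ) ^ (3 / 2 : ℝ) with hB
  have hB0 : 0 ≤ B := tsum_nonneg fun h => by positivity
  refine ⟨C₀ * (8 + B), by positivity, ?_⟩
  intro Y Δ K K' hY hΔ hΔ1 hK hKK hK3
  have hKR : (0 : ℝ) < K := by exact_mod_cast hK
  obtain ⟨s1, s2⟩ := FE.sum1 hΔ
  have t0 : ∀ h : ℕ, 0 ≤ FE.ww Δ h / √(h : ℝ) := fun h =>
    div_nonneg (FE.ww_nonneg hΔ h) (Real.sqrt_nonneg _)
  have t1 : Summable (fun h : ℕ => FE.ww Δ h / √(h : ℝ)) :=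
    Summable.of_nonneg_of_le t0 (fun h => FE.le2 h) hsum2
  have t2 : ∑' h : ℕ, FE.ww Δ h / √(h : ℝ) ≤ B := t1.tsum_le_tsum (fun h => FE.le2 h) hsum2
  have hG : ∀ h : ℕ, FE.ww Δ h * (C₀ * (√((h : ℝ) * Y / K) + √((K : ℝ) ^ 3 / ((h : ℝ) * Y)))) =
      C₀ * √(Y / K) * (FE.ww Δ h * √(h : ℝ)) +
        C₀ * √((K : ℝ) ^ 3 / Y) * (FE.ww Δ h / √(h : ℝ)) := by
    intro h
    have e1 : √((h : ℝ) * Y / K) = √(h : ℝ) * √(Y / K) := by
      rw [mul_div_assoc, Real.sqrt_mul (Nat.cast_nonneg h)]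
    have e2 : √((K : ℝ) ^ 3 / ((h : ℝ) * Y)) = √((K : ℝ) ^ 3 / Y) / √(h : ℝ) := by
      rw [mul_comm, ← div_div, Real.sqrt_div (by positivity)]
    rw [e1, e2]
    ring
  have hsm : Summable (fun h : ℕ => FE.ww Δ h *
      (C₀ * (√((h : ℝ) * Y / K) + √((K : ℝ) ^ 3 / ((h : ℝ) * Y))))) := by
    simp_rw [hG]
    exact (s1.mul_left _).add (t1.mul_left _)
  have key := hF (Ioc K K') (fun j => Y / j) Δ
    (fun h => C₀ * (√((h : ℝ) * Y / K) + √((K : ℝ) ^ 3 / ((h : ℝ) * Y)))) hΔ hΔ1 (by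
      intro h hh
      have hh' : (0 : ℝ) < h := by exact_mod_cast hh
      have h1 := hE ((h : ℝ) * Y) K K' (by positivity) hK hKK hK3
      have h2 : ∀ j : ℕ, (h : ℝ) * (Y / j) = (h : ℝ) * Y / j := fun j => by
        rw [mul_div_assoc]
      simp_rw [h2]
      exact h1) hsm
  refine key.trans ?_
  have hcard : ((Ioc K K').card : ℝ) ≤ 2 * K := by
    rw [Nat.card_Ioc]
    have : K' - K ≤ 2 * K := by omega
    exact_mod_cast this
  have hts : ∑' h : ℕ, min (1 / (h : ℝ)) (1 / ((h : ℝ) ^ 2 * Δ)) *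
      (C₀ * (√((h : ℝ) * Y / K) + √((K : ℝ) ^ 3 / ((h : ℝ) * Y)))) ≤
      C₀ * √(Y / K) * (8 / √Δ) + C₀ * √((K : ℝ) ^ 3 / Y) * B := by
    have h1 : ∑' h : ℕ, min (1 / (h : ℝ)) (1 / ((h : ℝ) ^ 2 * Δ)) *
        (C₀ * (√((h : ℝ) * Y / K) + √((K : ℝ) ^ 3 / ((h : ℝ) * Y)))) =
        ∑' h : ℕ, (C₀ * √(Y / K) * (FE.ww Δ h * √(h : ℝ)) +
        C₀ * √((K : ℝ) ^ 3 / Y) * (FE.ww Δ h / √(h : ℝ))) := tsum_congr hG
    rw [h1, (s1.mul_left _).tsum_add (t1.mul_left _), tsum_mul_left, tsum_mul_left]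
    gcongr
  have e3 : √(Y / K) * (8 / √Δ) = 8 * √(Y / (K * Δ)) := by
    rw [← div_div, Real.sqrt_div (by positivity : 0 ≤ Y / (K : ℝ))]
    ring
  have h4 : C₀ * √(Y / K) * (8 / √Δ) + C₀ * √((K : ℝ) ^ 3 / Y) * B ≤
      C₀ * (8 + B) * (√(Y / (K * Δ)) + √((K : ℝ) ^ 3 / Y)) := by
    rw [mul_assoc C₀, e3]
    have h5 : 0 ≤ C₀ * B * √(Y / (K * Δ)) := by positivity
    have h6 : 0 ≤ C₀ * 8 * √((K : ℝ) ^ 3 / Y) := by positivity
    nlinarith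
  have h7 : ((Ioc K K').card : ℝ) * Δ ≤ 2 * K * Δ := mul_le_mul_of_nonneg_right hcard hΔ.le
  linarith

end Pool.Agent.Helper5.LP
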