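import Pool.Prelude.Def_F_862454f0
import Pool.Agent.Helper5.LP.St

/-!
# Project LP (MP_49e2dd_nt): the final deduction
-/

namespace Pool.Agent.Helper5.LP

open Finset Filter

/-- if the square of a prime `P > v - u` divides the product of `[u, v]` then it divides one of
the factors -/
theorem sq_dvd_factor {u v P : ℕ} (hP : P.Prime) (huv : v - u < P)
    (h : P ^ 2 ∣ ∏ m ∈ Icc u v, m) : ∃ m ∈ Icc u v, P ^ 2 ∣ m := by
  have h1 : P ∣ ∏ m ∈ Icc u v, m := (Dvd.intro_left (P ^ 1) (by ring)).trans h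
  obtain ⟨m0, hm0, hd⟩ := (Prime.dvd_finsetProd_iff hP.prime _).1 h1
  refine ⟨m0, hm0, ?_⟩
  rw [← Finset.mul_prod_erase _ _ hm0] at h
  have hcop : Nat.Coprime (P ^ 2) (∏ m ∈ (Icc u v).erase m0, m) := by
    apply Nat.Coprime.pow_left
    rw [Nat.Prime.coprime_iff_not_dvd hP]
    intro hdv
    obtain ⟨m1, hm1, hd1⟩ := (Prime.dvd_finsetProd_iff hP.prime _).1 hdv
    rw [mem_erase] at hm1
    rw [mem_Icc] at hm0
    have hm1' := mem_Icc.1 hm1.2
    rcases lt_trichotomy m1 m0 with hlt | heq | hgt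
    · have := Nat.le_of_dvd (by omega) (Nat.dvd_sub hd hd1)
      omega
    · exact hm1.1 heq
    · have := Nat.le_of_dvd (by omega) (Nat.dvd_sub hd1 hd)
      omega
  exact hcop.dvd_of_dvd_mul_right h

theorem fin (hT : StT) (hA : StA) : ∀ᶠ v : ℕ in atTop, ∀ u : ℕ,
    N063b59cf.LargestPrimeRepeated u v → ((v - u : ℕ) : ℝ) ≤ (v : ℝ) ^ (21 / 50 : ℝ) := by
  filter_upwards [hT, hA, eventually_ge_atTop 2] with v hT hA hv2 u hu
  obtain ⟨hu1, huv, -, hdvd⟩ := hu
  by_contra hcon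
  push Not at hcon
  set N := ∏ m ∈ Icc u v, m with hN
  have hNpos : 0 < N := by
    rw [hN]
    apply Finset.prod_pos
    intro m hm
    rw [mem_Icc] at hm
    omega
  have hN1 : 1 < N := by
    have h1 : v ∣ N := Finset.dvd_prod_of_mem (fun m => m) (mem_Icc.2 ⟨huv, le_refl v⟩)
    have := Nat.le_of_dvd hNpos h1
    omega
  set P := Nat.maxPrimeFac N with hPdef
  have hP : P.Prime := Nat.prime_maxPrimeFac_of_one_lt N hN1
  have hmax : ∀ p : ℕ, p.Prime → ∀ m ∈ Icc u v, p ∣ m → p ≤ P := by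
    intro p hp m hm hpm
    exact Nat.le_maxPrimeFac N p hNpos hp (hpm.trans (Finset.dvd_prod_of_mem (fun m => m) hm))
  -- `v < 2 u` by Bertrand's postulate
  have hv2u : v < 2 * u := by
    by_contra hc
    push Not at hc
    obtain ⟨q, hq, hq1, hq2⟩ := Nat.exists_prime_lt_and_le_two_mul (v / 2) (by omega)
    have hqI : q ∈ Icc u v := mem_Icc.2 ⟨by omega, by omega⟩
    have hqP : q ≤ P := hmax q hq q hqI dvd_rfl
    have huvP : v - u < P ∨ P ≤ v - u := by omega
    -- each multiple of `P` in the interval is `P` itself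
    have h1 : P ∣ N := (Dvd.intro_left (P ^ 1) (by ring)).trans hdvd
    obtain ⟨m0, hm0, hd⟩ := (Prime.dvd_finsetProd_iff hP.prime _).1 h1
    have hm0' := mem_Icc.1 hm0
    have huniq : ∀ m ∈ Icc u v, P ∣ m → m = P := by
      intro m hm hPm
      rw [mem_Icc] at hm
      obtain ⟨c, rfl⟩ := hPm
      have hc1 : c = 1 := by
        rcases Nat.lt_or_ge c 2 with h | h
        · interval_cases c
          · omega
          · rfl
        · exfalso
          have : P * 2 ≤ P * c := Nat.mul_le_mul_left P h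
          omega
      rw [hc1, mul_one]
    have hm0P : m0 = P := huniq m0 hm0 hd
    rw [hN, ← Finset.mul_prod_erase _ _ hm0, hm0P, pow_two] at hdvd
    have hdvd2 : P ∣ ∏ m ∈ (Icc u v).erase P, m := Nat.dvd_of_mul_dvd_mul_left hP.pos hdvd
    obtain ⟨m1, hm1, hd1⟩ := (Prime.dvd_finsetProd_iff hP.prime _).1 hdvd2
    rw [mem_erase] at hm1
    exact hm1.1 (huniq m1 hm1.2 hd1)
  rcases le_or_gt v ((v - u) ^ 2) with hbig | hsmall
  · -- long intervals
    obtain ⟨p, hp, hLp, hpd⟩ := hT (v - u) hbig (by omega)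
    rw [show v - (v - u) = u by omega] at hpd
    have hpP : p ≤ P := Nat.le_maxPrimeFac N p hNpos hp hpd
    obtain ⟨m, hm, hPm⟩ := sq_dvd_factor hP (by omega) hdvd
    rw [mem_Icc] at hm
    have h1 : P ^ 2 ≤ m := Nat.le_of_dvd (by omega) hPm
    have h2 : (v - u) ^ 2 < P ^ 2 := Nat.pow_lt_pow_left (by omega) (by norm_num)
    omega
  · -- short intervals
    have hPv : P ^ 2 ≤ v := by
      rcases Nat.lt_or_ge (v - u) P with h | h
      · obtain ⟨m, hm, hPm⟩ := sq_dvd_factor hP h hdvd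
        rw [mem_Icc] at hm
        exact (Nat.le_of_dvd (by omega) hPm).trans hm.2
      · exact (Nat.pow_le_pow_left h 2).trans hsmall.le
    obtain ⟨m, hm, p, hp, hpm, hlt⟩ := hA
    rw [mem_Ioc] at hm
    have hfl : ⌊(v : ℝ) ^ (21 / 50 : ℝ)⌋₊ ≤ v - u := by
      have := Nat.floor_le (a := (v : ℝ) ^ (21 / 50 : ℝ)) (by positivity)
      have h3 : ((⌊(v : ℝ) ^ (21 / 50 : ℝ)⌋₊ : ℕ) : ℝ) < ((v - u : ℕ) : ℝ) := lt_of_le_of_lt this hcon
      have h4 : ⌊(v : ℝ) ^ (21 / 50 : ℝ)⌋₊ < v - u := by exact_mod_cast h3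
      omega
    have hpP := hmax p hp m (mem_Icc.2 ⟨by omega, hm.2⟩) hpm
    have := Nat.pow_le_pow_left hpP 2
    omega

end Pool.Agent.Helper5.LP
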