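import Pool.Agent.Helper5.LP.St
import Pool.Agent.Helper13.Dn.Density

/-!
# Project LP, module M: small primes
-/

namespace Pool.Agent.Helper5.LP

open Finset

/-- the number of multiples of `k` in `(x - H, x]` -/
theorem cnt_eq (x H k : ℕ) : cnt x H k = x / k - (x - H) / k := by
  unfold cnt
  have h1 : (Ioc 0 x).filter (fun m => k ∣ m)
      = (Ioc 0 (x - H)).filter (fun m => k ∣ m) ∪ (Ioc (x - H) x).filter (fun m => k ∣ m) := by
    rw [← filter_union, Ioc_union_Ioc_eq_Ioc (Nat.zero_le _) (Nat.sub_le _ _)]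
  have h2 : Disjoint ((Ioc 0 (x - H)).filter (fun m => k ∣ m))
      ((Ioc (x - H) x).filter (fun m => k ∣ m)) := by
    rw [Finset.disjoint_left]
    intro m hm1 hm2
    rw [mem_filter, mem_Ioc] at hm1 hm2
    omega
  have h3 := congrArg card h1
  rw [card_union_of_disjoint h2, Nat.Ioc_filter_dvd_card_eq_div, Nat.Ioc_filter_dvd_card_eq_div] at h3
  omega

theorem cnt_le (x H k : ℕ) (hk : 1 ≤ k) (hH : H ≤ x) : (cnt x H k : ℝ) ≤ H / k + 1 := by
  have hk0 : (0 : ℝ) < k := by exact_mod_cast hk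
  rw [cnt_eq]
  have h1 : (x - H) / k ≤ x / k := Nat.div_le_div_right (Nat.sub_le _ _)
  rw [Nat.cast_sub h1]
  have h2 : ((x / k : ℕ) : ℝ) ≤ x / k := Nat.cast_div_le
  have h3 : ((x : ℝ) - H) / k - 1 < (((x - H) / k : ℕ) : ℝ) := by
    have h4 : x - H < ((x - H) / k + 1) * k := by
      have := Nat.lt_div_mul_add (a := x - H) (b := k) (by omega)
      nlinarith
    have h5 : ((x - H : ℕ) : ℝ) < ((((x - H) / k : ℕ) : ℝ) + 1) * k := by exact_mod_cast h4
    rw [Nat.cast_sub hH] at h5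
    rw [sub_lt_iff_lt_add, div_lt_iff₀ hk0]
    exact h5
  have h6 : (x : ℝ) / k - (((x : ℝ) - H) / k - 1) = H / k + 1 := by ring
  linarith

theorem stM : StM := by
  intro x H hH hHx
  have hH0 : (0 : ℝ) < H := by exact_mod_cast hH
  have hset : (Icc 1 H).filter Nat.Prime = H.primesLE := by
    ext p
    rw [mem_filter, mem_Icc, Nat.mem_primesLE]
    constructor
    · rintro ⟨⟨_, h⟩, hp⟩; exact ⟨h, hp⟩
    · rintro ⟨h, hp⟩; exact ⟨⟨hp.one_lt.le, h⟩, hp⟩
  rw [hset]
  have h1 := Pool.Agent.Helper13.Dn.mertens_upper H hH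
  have h2 := Chebyshev.theta_le_log4_mul_x (x := (H : ℝ)) hH0.le
  rw [Chebyshev.theta_eq_sum_primesLE_log] at h2
  have hl2 : Real.log 2 < 0.6931471808 := Real.log_two_lt_d9
  have hl4 : Real.log 4 = 2 * Real.log 2 := by
    rw [show (4 : ℝ) = 2 ^ 2 by norm_num, Real.log_pow]; norm_num
  calc ∑ p ∈ H.primesLE, (cnt x H p : ℝ) * Real.log p
      ≤ ∑ p ∈ H.primesLE, (H * (Real.log p / p) + Real.log p) := by
        apply sum_le_sum
        intro p hp
        rw [Nat.mem_primesLE] at hp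
        have hp1 : 1 ≤ p := hp.2.one_lt.le
        have hpr : (1 : ℝ) ≤ p := by exact_mod_cast hp1
        have hlog : 0 ≤ Real.log p := Real.log_nonneg hpr
        calc (cnt x H p : ℝ) * Real.log p ≤ (H / p + 1) * Real.log p :=
              mul_le_mul_of_nonneg_right (cnt_le x H p hp1 hHx) hlog
          _ = H * (Real.log p / p) + Real.log p := by ring
    _ = H * ∑ p ∈ H.primesLE, Real.log p / p + ∑ p ∈ H.primesLE, Real.log p := by
        rw [sum_add_distrib, ← mul_sum]
    _ ≤ H * (Real.log H + Real.log 4) + Real.log 4 * H := by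
        gcongr
    _ ≤ H * (Real.log H + 3) := by
        rw [hl4]; nlinarith

end Pool.Agent.Helper5.LP
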