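import Pool.Agent.Helper5.LP.St
import Pool.Agent.Helper58.MR.BT

/-!
# LP module Q: the contribution of higher prime powers
-/

namespace Pool.Agent.Helper5.LP

open Finset Filter

namespace Qm

theorem log_le_sqrt {s : ℝ} (hs : 1 ≤ s) : Real.log s ≤ 2 * √s := by
  have h0 : 0 < √s := Real.sqrt_pos.2 (by linarith)
  have h1 := Real.log_le_sub_one_of_pos h0
  have h2 : Real.log s = 2 * Real.log (√s) := by
    rw [Real.log_sqrt (by linarith)]; ring
  rw [h2]
  linarith

theorem log_div_sq {s : ℕ} : Real.log s / (s : ℝ) ^ 2 ≤ 2 * (1 / (s : ℝ) ^ (3 / 2 : ℝ)) := by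
  rcases Nat.eq_zero_or_pos s with h | h
  · subst h
    simp
  · have hs : (1 : ℝ) ≤ s := by exact_mod_cast h
    have hs0 : (0 : ℝ) < s := by linarith
    have h1 := log_le_sqrt hs
    have h2 : (s : ℝ) ^ 2 = (s : ℝ) ^ (3 / 2 : ℝ) * √(s : ℝ) := by
      rw [Real.sqrt_eq_rpow, ← Real.rpow_add hs0, ← Real.rpow_natCast]
      norm_num
    have h3 : 0 < (s : ℝ) ^ (3 / 2 : ℝ) := Real.rpow_pos_of_pos hs0 _
    have h4 : 0 < √(s : ℝ) := Real.sqrt_pos.2 hs0
    rw [h2, div_le_iff₀ (mul_pos h3 h4)]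
    have h5 : 2 * (1 / (s : ℝ) ^ (3 / 2 : ℝ)) * ((s : ℝ) ^ (3 / 2 : ℝ) * √(s : ℝ)) = 2 * √(s : ℝ) := by
      field_simp
    rw [h5]
    exact h1

theorem summ : Summable (fun n : ℕ => 2 * (1 / (n : ℝ) ^ (3 / 2 : ℝ))) :=
  (Real.summable_one_div_nat_rpow.2 (by norm_num)).mul_left 2

/-- the constant -/
noncomputable def C0 : ℝ := ∑' n : ℕ, 2 * (1 / (n : ℝ) ^ (3 / 2 : ℝ))

theorem C0_nonneg : 0 ≤ C0 := tsum_nonneg fun n => by positivity

theorem sum_le_C0 (S : Finset ℕ) : ∑ s ∈ S, Real.log s / (s : ℝ) ^ 2 ≤ C0 :=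
  (sum_le_sum fun _ _ => log_div_sq).trans
    (summ.sum_le_tsum S fun n _ => by positivity)

/-- `s ^ 3 ≤ x` gives `s ≤ x ^ (1/3)` -/
theorem le_rpow {s x : ℕ} (h : s ^ 3 ≤ x) : (s : ℝ) ≤ (x : ℝ) ^ (1 / 3 : ℝ) := by
  have h1 : ((s : ℝ) ^ 3) ^ (1 / 3 : ℝ) = s := by
    rw [← Real.rpow_natCast, ← Real.rpow_mul (by positivity)]
    norm_num
  rw [← h1]
  refine Real.rpow_le_rpow (by positivity) (by exact_mod_cast h) (by norm_num)

theorem card_le_rpow (x : ℕ) (T : Finset ℕ) (hT : ∀ t ∈ T, 1 ≤ t ∧ t ^ 3 ≤ x) :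
    (T.card : ℝ) ≤ (x : ℝ) ^ (1 / 3 : ℝ) := by
  have h0 : (0 : ℝ) ≤ (x : ℝ) ^ (1 / 3 : ℝ) := by positivity
  have h1 : T ⊆ Icc 1 ⌊(x : ℝ) ^ (1 / 3 : ℝ)⌋₊ := by
    intro t ht
    rw [mem_Icc]
    exact ⟨(hT t ht).1, Nat.le_floor (le_rpow (hT t ht).2)⟩
  have h2 := card_le_card h1
  rw [Nat.card_Icc, Nat.add_sub_cancel] at h2
  exact (Nat.cast_le.2 h2).trans (Nat.floor_le h0)

end Qm

open Qm

theorem stQ : StQ := by
  classical
  have hC0 := C0_nonneg
  refine ⟨2 * C0 + 6, by linarith, ?_⟩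
  intro x H y hx hH hHx hy
  set I := Ioc (x - H) x with hI
  have hHx' : H ≤ x := by nlinarith
  have hIm : ∀ m ∈ I, 1 ≤ m ∧ x - H < m ∧ m ≤ x := by
    intro m hm
    rw [hI, mem_Ioc] at hm
    exact ⟨by omega, hm.1, hm.2⟩
  -- the decomposition
  have hdec : ∀ m : ℕ, ∃ t s : ℕ, 1 ≤ m → 0 < t ∧ 0 < s ∧ s ^ 2 * t = m ∧ Squarefree t := by
    intro m
    rcases Nat.eq_zero_or_pos m with h | h
    · exact ⟨0, 0, fun h' => by omega⟩
    · obtain ⟨a, b, ha, hb, hab, hsq⟩ := Nat.sq_mul_squarefree_of_pos h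
      exact ⟨a, b, fun _ => ⟨ha, hb, hab, hsq⟩⟩
  choose t s hts using hdec
  have hsx : ∀ m ∈ I, s m ≤ x := by
    intro m hm
    obtain ⟨h1, h2, h3⟩ := hIm m hm
    obtain ⟨h4, h5, h6, h7⟩ := hts m h1
    nlinarith [Nat.mul_le_mul h5 h4]
  have hlogx : 0 ≤ Real.log x := Real.log_natCast_nonneg x
  have hX0 : (0 : ℝ) ≤ (x : ℝ) ^ (1 / 3 : ℝ) := by positivity
  -- step 1
  have hstep1 : ∀ m ∈ I, Real.log m ≤
      ∑ p ∈ (Icc 1 y).filter Nat.Prime, (if p ∣ m then Real.log p else 0) +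
        2 * Real.log (s m) := by
    intro m hm
    obtain ⟨h1, -, -⟩ := hIm m hm
    obtain ⟨h4, h5, h6, h7⟩ := hts m h1
    have hlog : Real.log m = 2 * Real.log (s m) + Real.log (t m) := by
      have h8 : (m : ℝ) = (s m : ℝ) ^ 2 * (t m : ℝ) := by exact_mod_cast h6.symm
      have h9 : (s m : ℝ) ≠ 0 := by exact_mod_cast h5.ne'
      have h10 : (t m : ℝ) ≠ 0 := by exact_mod_cast h4.ne'
      rw [h8, Real.log_mul (pow_ne_zero _ h9) h10, Real.log_pow]
      norm_num
    have hlt : Real.log (t m) = ∑ p ∈ (t m).primeFactors, Real.log p := by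
      conv_lhs => rw [← Nat.prod_primeFactors_of_squarefree h7]
      push_cast
      rw [Real.log_prod]
      intro p hp
      exact_mod_cast (Nat.prime_of_mem_primeFactors hp).ne_zero
    have hle : ∑ p ∈ (t m).primeFactors, Real.log p ≤
        ∑ p ∈ (Icc 1 y).filter Nat.Prime, (if p ∣ m then Real.log p else 0) := by
      rw [← sum_filter]
      refine sum_le_sum_of_subset_of_nonneg ?_ fun p _ _ => Real.log_natCast_nonneg p
      intro p hp
      have hpp := Nat.prime_of_mem_primeFactors hp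
      have hpm : p ∣ m := by
        rw [← h6]
        exact (Nat.dvd_of_mem_primeFactors hp).mul_left _
      rw [mem_filter, mem_filter, mem_Icc]
      exact ⟨⟨⟨hpp.one_lt.le, hy m hm p hpp hpm⟩, hpp⟩, hpm⟩
    linarith
  have hstep2 : ∑ m ∈ I, ∑ p ∈ (Icc 1 y).filter Nat.Prime, (if p ∣ m then Real.log p else 0) =
      ∑ p ∈ (Icc 1 y).filter Nat.Prime, (cnt x H p : ℝ) * Real.log p := by
    rw [sum_comm]
    refine sum_congr rfl fun p _ => ?_
    rw [← sum_filter, sum_const, nsmul_eq_mul]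
    rfl
  -- part (a)
  set Ia := I.filter (fun m => s m ^ 3 ≤ x) with hIa
  set Ib := I.filter (fun m => ¬ s m ^ 3 ≤ x) with hIb
  have hsplit : ∑ m ∈ I, Real.log (s m) = ∑ m ∈ Ia, Real.log (s m) + ∑ m ∈ Ib, Real.log (s m) :=
    (sum_filter_add_sum_filter_not I _ _).symm
  set Sa : Finset ℕ := (Icc 1 x).filter (fun v => v ^ 3 ≤ x) with hSa
  have ha : ∑ m ∈ Ia, Real.log (s m) ≤ C0 * H + (x : ℝ) ^ (1 / 3 : ℝ) * Real.log x := by
    have h1 : ∀ m ∈ Ia, s m ∈ Sa := by
      intro m hm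
      rw [hIa, mem_filter] at hm
      obtain ⟨h2, -, -⟩ := hIm m hm.1
      rw [hSa, mem_filter, mem_Icc]
      exact ⟨⟨(hts m h2).2.1, hsx m hm.1⟩, hm.2⟩
    have h2 : ∑ m ∈ Ia, Real.log (s m) = ∑ v ∈ Sa, ∑ m ∈ Ia.filter (fun m => s m = v),
        Real.log (s m) := (sum_fiberwise_of_maps_to h1 _).symm
    have h3 : ∀ v ∈ Sa, ∑ m ∈ Ia.filter (fun m => s m = v), Real.log (s m) ≤
        (Real.log v / (v : ℝ) ^ 2) * H + Real.log v := by
      intro v hv
      rw [hSa, mem_filter, mem_Icc] at hv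
      have hv0 : (0 : ℝ) < v := by exact_mod_cast hv.1.1
      have hlv : 0 ≤ Real.log v := Real.log_natCast_nonneg v
      have h4 : ∑ m ∈ Ia.filter (fun m => s m = v), Real.log (s m) =
          ((Ia.filter (fun m => s m = v)).card : ℝ) * Real.log v := by
        rw [← nsmul_eq_mul, ← sum_const]
        refine sum_congr rfl fun m hm => ?_
        rw [(mem_filter.1 hm).2]
      have h5 : (Ia.filter (fun m => s m = v)) ⊆ (Ioc (x - H) x).filter (fun m => v ^ 2 ∣ m) := by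
        intro m hm
        rw [mem_filter] at hm
        have hmI : m ∈ I := (mem_filter.1 hm.1).1
        obtain ⟨h6, -, -⟩ := hIm m hmI
        rw [mem_filter]
        refine ⟨hmI, ?_⟩
        rw [← (hts m h6).2.2.1, hm.2]
        exact Dvd.intro _ rfl
      have h6 := Pool.MR.card_Ioc_dvd (x - H) x (v ^ 2) (Nat.sub_le _ _) (Nat.one_le_pow _ _ hv.1.1)
      have h7 : ((x : ℝ) - ((x - H : ℕ) : ℝ)) = H := by
        rw [Nat.cast_sub hHx']; ring
      rw [h7] at h6
      have h8 := (abs_le.1 h6).2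
      have h9 : ((Ia.filter (fun m => s m = v)).card : ℝ) ≤ (H : ℝ) / (v : ℝ) ^ 2 + 1 := by
        have h10 : ((Ia.filter (fun m => s m = v)).card : ℝ) ≤
          (((Ioc (x - H) x).filter (fun m => v ^ 2 ∣ m)).card : ℝ) :=
          Nat.cast_le.2 (card_le_card h5)
        push_cast at h8
        linarith
      rw [h4]
      calc ((Ia.filter (fun m => s m = v)).card : ℝ) * Real.log v
          ≤ ((H : ℝ) / (v : ℝ) ^ 2 + 1) * Real.log v := mul_le_mul_of_nonneg_right h9 hlv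
        _ = (Real.log v / (v : ℝ) ^ 2) * H + Real.log v := by ring
    have h4 : ∑ v ∈ Sa, Real.log v ≤ (x : ℝ) ^ (1 / 3 : ℝ) * Real.log x := by
      have h5 : ∑ v ∈ Sa, Real.log v ≤ ∑ _v ∈ Sa, Real.log x := by
        refine sum_le_sum fun v hv => ?_
        rw [hSa, mem_filter, mem_Icc] at hv
        exact Real.log_le_log (by exact_mod_cast hv.1.1) (by exact_mod_cast hv.1.2)
      rw [sum_const, nsmul_eq_mul] at h5
      refine h5.trans (mul_le_mul_of_nonneg_right (card_le_rpow x Sa fun v hv => ?_) hlogx)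
      rw [hSa, mem_filter, mem_Icc] at hv
      exact ⟨hv.1.1, hv.2⟩
    calc ∑ m ∈ Ia, Real.log (s m) ≤ ∑ v ∈ Sa, ((Real.log v / (v : ℝ) ^ 2) * H + Real.log v) := by
          rw [h2]; exact sum_le_sum h3
      _ = (∑ v ∈ Sa, Real.log v / (v : ℝ) ^ 2) * H + ∑ v ∈ Sa, Real.log v := by
          rw [sum_add_distrib, sum_mul]
      _ ≤ C0 * H + (x : ℝ) ^ (1 / 3 : ℝ) * Real.log x :=
          add_le_add (mul_le_mul_of_nonneg_right (sum_le_C0 Sa) (by positivity)) h4
  -- part (b)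
  have hb : ∑ m ∈ Ib, Real.log (s m) ≤ 2 * (x : ℝ) ^ (1 / 3 : ℝ) * Real.log x := by
    have hcard : (Ib.card : ℝ) ≤ 2 * (x : ℝ) ^ (1 / 3 : ℝ) := by
      have htx : ∀ m ∈ Ib, t m ^ 3 ≤ x := by
        intro m hm
        rw [hIb, mem_filter] at hm
        obtain ⟨h1, -, h3⟩ := hIm m hm.1
        obtain ⟨h4, h5, h6, h7⟩ := hts m h1
        have h8 : x < s m ^ 3 := not_le.1 hm.2
        by_contra hcon
        have h9 : x < t m ^ 3 := not_le.1 hcon
        have h10 : m ^ 3 = (s m ^ 3) * (s m ^ 3) * (t m ^ 3) := by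
          conv_lhs => rw [← h6]
          ring
        have h11 : x * x * x < (s m ^ 3) * (s m ^ 3) * (t m ^ 3) :=
          Nat.mul_lt_mul'' (Nat.mul_lt_mul'' h8 h8) h9
        have h12 : m ^ 3 ≤ x ^ 3 := Nat.pow_le_pow_left h3 3
        have h13 : x ^ 3 = x * x * x := by ring
        omega
      have hinj : Set.InjOn (fun m => (t m, s m % 2)) (Ib : Set ℕ) := by
        have key : ∀ m ∈ Ib, ∀ m' ∈ Ib, t m = t m' → s m % 2 = s m' % 2 → s m < s m' → False := by
          intro m hm m' hm' h1 h2 h3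
          obtain ⟨a1, a2, a3⟩ := hIm m (mem_filter.1 hm).1
          obtain ⟨b1, b2, b3⟩ := hIm m' (mem_filter.1 hm').1
          obtain ⟨c1, c2, c3, -⟩ := hts m a1
          obtain ⟨d1, d2, d3, -⟩ := hts m' b1
          have h4 : s m + 2 ≤ s m' := by omega
          rw [← h1] at d3
          -- m' - m ≥ 4 s t
          have h5 : (s m + 2) ^ 2 * t m ≤ m' := by
            rw [← d3]
            exact Nat.mul_le_mul_right _ (Nat.pow_le_pow_left h4 2)
          have h6 : (s m + 2) ^ 2 * t m = s m ^ 2 * t m + (4 * (s m * t m) + 4 * t m) := by ring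
          rw [c3] at h6
          have h7 : 4 * (s m * t m) < H := by omega
          have h8 : (4 * (s m * t m)) ^ 2 < H ^ 2 := Nat.pow_lt_pow_left h7 (by norm_num)
          have h9 : 16 * m ≤ (4 * (s m * t m)) ^ 2 := by
            have h10 : (4 * (s m * t m)) ^ 2 = 16 * (s m ^ 2 * t m) * t m := by ring
            rw [h10, c3]
            exact Nat.le_mul_of_pos_right _ c1
          have h10 : x ≤ 16 * m := by
            rcases Nat.lt_or_ge H 2 with h11 | h11
            · omega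
            · have h12 : 2 * H ≤ x := by nlinarith
              omega
          omega
        intro m hm m' hm' heq
        have h1 : t m = t m' := congrArg Prod.fst heq
        have h2 : s m % 2 = s m' % 2 := congrArg Prod.snd heq
        rcases lt_trichotomy (s m) (s m') with h | h | h
        · exact (key m hm m' hm' h1 h2 h).elim
        · rw [← (hts m (hIm m (mem_filter.1 hm).1).1).2.2.1,
            ← (hts m' (hIm m' (mem_filter.1 hm').1).1).2.2.1, h, h1]
        · exact (key m' hm' m hm h1.symm h2.symm h).elim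
      have hmaps : Set.MapsTo (fun m => (t m, s m % 2)) (Ib : Set ℕ)
          ((((Icc 1 x).filter (fun v => v ^ 3 ≤ x)) ×ˢ range 2 : Finset (ℕ × ℕ)) : Set (ℕ × ℕ)) := by
        intro m hm
        obtain ⟨h1, -, h3⟩ := hIm m (mem_filter.1 hm).1
        obtain ⟨h4, h5, h6, -⟩ := hts m h1
        rw [mem_coe, mem_product, mem_filter, mem_Icc, mem_range]
        refine ⟨⟨⟨h4, ?_⟩, htx m hm⟩, Nat.mod_lt _ (by norm_num)⟩
        show t m ≤ x
        nlinarith [Nat.one_le_pow 2 _ h5]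
      have h1 := card_le_card_of_injOn _ hmaps hinj
      rw [card_product, card_range] at h1
      have h2 := card_le_rpow x ((Icc 1 x).filter (fun v => v ^ 3 ≤ x)) (by
        intro v hv
        rw [mem_filter, mem_Icc] at hv
        exact ⟨hv.1.1, hv.2⟩)
      have h3 : (Ib.card : ℝ) ≤ (((Icc 1 x).filter (fun v => v ^ 3 ≤ x)).card : ℝ) * 2 := by
        exact_mod_cast h1
      linarith
    have h1 : ∑ m ∈ Ib, Real.log (s m) ≤ ∑ _m ∈ Ib, Real.log x := by
      refine sum_le_sum fun m hm => ?_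
      have hmI := (mem_filter.1 hm).1
      exact Real.log_le_log (by exact_mod_cast (hts m (hIm m hmI).1).2.1)
        (by exact_mod_cast hsx m hmI)
    rw [sum_const, nsmul_eq_mul] at h1
    exact h1.trans (mul_le_mul_of_nonneg_right hcard hlogx)
  -- conclusion
  have hmain : ∑ m ∈ I, Real.log m ≤
      ∑ p ∈ (Icc 1 y).filter Nat.Prime, (cnt x H p : ℝ) * Real.log p +
        2 * ∑ m ∈ I, Real.log (s m) := by
    rw [← hstep2, mul_sum, ← sum_add_distrib]
    exact sum_le_sum hstep1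
  have hH0 : (0 : ℝ) ≤ H := by positivity
  have hXl : 0 ≤ (x : ℝ) ^ (1 / 3 : ℝ) * Real.log x := mul_nonneg hX0 hlogx
  rw [hsplit] at hmain
  nlinarith [mul_nonneg hC0 hXl]

end Pool.Agent.Helper5.LP
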