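import Pool.Agent.Helper5.LP.St
import Pool.Agent.Helper58.MR.Sel

/-!
# Project LP, module S: Selberg weights, sums over least common multiples, harmonic sums
-/

namespace Pool.Agent.Helper5.LP

open Finset

theorem stS (h1 : StS1) (h2 : StS2) : StS := by
  intro N hN
  refine ⟨Pool.MR.selL N, Pool.MR.selL_one N (by omega), fun d => h1 N d (by omega), ?_⟩
  have h3 := Pool.MR.selQ_eq N (by omega)
  unfold Pool.MR.selQ at h3
  rw [h3]
  have hN2 : (2 : ℝ) ≤ N := by exact_mod_cast hN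
  have hlog : 0 < Real.log N := Real.log_pos (by linarith)
  apply one_div_le_one_div_of_le hlog
  refine le_trans ?_ (h2 N (by omega))
  apply Real.log_le_log (by linarith)
  linarith

theorem harm_le (m : ℕ) : ∑ j ∈ Icc 1 m, 1 / (j : ℝ) ≤ 1 + Real.log m := by
  have := harmonic_le_one_add_log m
  rw [harmonic_eq_sum_Icc] at this
  push_cast at this
  refine le_trans (le_of_eq ?_) this
  apply sum_congr rfl; intro n _; rw [one_div]

theorem sum_mult (N g : ℕ) (hg : 1 ≤ g) :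
    ∑ d ∈ (Icc 1 N).filter (fun d => g ∣ d), 1 / (d : ℝ) = (1 / g) * ∑ m ∈ Icc 1 (N / g), 1 / (m : ℝ) := by
  have hg0 : (g : ℝ) ≠ 0 := by exact_mod_cast (by omega : g ≠ 0)
  have h1 : (Icc 1 N).filter (fun d => g ∣ d) = (Icc 1 (N / g)).image (fun m => g * m) := by
    ext d
    rw [mem_filter, mem_Icc, mem_image]
    constructor
    · rintro ⟨⟨h1, h2⟩, m, rfl⟩
      refine ⟨m, ?_, rfl⟩
      rw [mem_Icc, Nat.le_div_iff_mul_le (by omega)]
      refine ⟨Nat.pos_of_ne_zero (by rintro rfl; simp at h1), by rw [mul_comm]; exact h2⟩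
    · rintro ⟨m, hm, rfl⟩
      rw [mem_Icc, Nat.le_div_iff_mul_le (by omega)] at hm
      exact ⟨⟨Nat.mul_pos (by omega) (by omega), by rw [mul_comm]; exact hm.2⟩, dvd_mul_right _ _⟩
  rw [h1, sum_image (by
    intro x _ y _ h
    exact Nat.eq_of_mul_eq_mul_left (by omega) h), mul_sum]
  apply sum_congr rfl
  intro m hm
  rw [mem_Icc] at hm
  have hm0 : (m : ℝ) ≠ 0 := by exact_mod_cast (by omega : m ≠ 0)
  push_cast
  field_simp

theorem stL : StL := by
  intro N hN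
  have hlogN : 0 ≤ Real.log N := Real.log_nonneg (by exact_mod_cast hN)
  have h1 : ∑ d1 ∈ Icc 1 N, ∑ d2 ∈ Icc 1 N, 1 / (Nat.lcm d1 d2 : ℝ)
      = ∑ d1 ∈ Icc 1 N, ∑ d2 ∈ Icc 1 N, ∑ l ∈ Icc 1 N,
      (if l ∣ d1 then 1 / (d1 : ℝ) else 0) * (if l ∣ d2 then 1 / (d2 : ℝ) else 0)
        * (Nat.totient l : ℝ) := by
    apply sum_congr rfl; intro d1 hd1
    apply sum_congr rfl; intro d2 hd2
    rw [mem_Icc] at hd1 hd2
    have hd10 : (d1 : ℝ) ≠ 0 := by exact_mod_cast (by omega : d1 ≠ 0)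
    have hd20 : (d2 : ℝ) ≠ 0 := by exact_mod_cast (by omega : d2 ≠ 0)
    have hg0 : 0 < Nat.gcd d1 d2 := Nat.gcd_pos_of_pos_left _ (by omega)
    have hgcd : (Nat.gcd d1 d2 : ℝ) = ∑ l ∈ (Icc 1 N).filter (fun l => l ∣ d1 ∧ l ∣ d2), (Nat.totient l : ℝ) := by
      have h2 : (Icc 1 N).filter (fun l => l ∣ d1 ∧ l ∣ d2) = (Nat.gcd d1 d2).divisors := by
        ext l
        rw [mem_filter, mem_Icc, Nat.mem_divisors, Nat.dvd_gcd_iff]
        constructor
        · rintro ⟨_, h⟩; exact ⟨h, hg0.ne'⟩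
        · rintro ⟨h, _⟩
          refine ⟨⟨Nat.pos_of_dvd_of_pos h.1 (by omega), ?_⟩, h⟩
          exact (Nat.le_of_dvd (by omega) h.1).trans hd1.2
      rw [h2]
      have := Nat.sum_totient (Nat.gcd d1 d2)
      exact_mod_cast this.symm
    have hlcm : (Nat.lcm d1 d2 : ℝ) = d1 * d2 / Nat.gcd d1 d2 := by
      rw [eq_div_iff (by exact_mod_cast hg0.ne')]
      have := Nat.gcd_mul_lcm d1 d2
      rw [mul_comm] at this
      exact_mod_cast this
    have h3 : ∑ l ∈ Icc 1 N,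
      (if l ∣ d1 then 1 / (d1 : ℝ) else 0) * (if l ∣ d2 then 1 / (d2 : ℝ) else 0)
        * (Nat.totient l : ℝ) = (1 / (d1 : ℝ)) * (1 / (d2 : ℝ))
          * ∑ l ∈ (Icc 1 N).filter (fun l => l ∣ d1 ∧ l ∣ d2), (Nat.totient l : ℝ) := by
      rw [mul_sum, sum_filter]
      apply sum_congr rfl; intro l _
      by_cases a1 : l ∣ d1 <;> by_cases a2 : l ∣ d2 <;> simp [a1, a2]
    rw [h3, ← hgcd, hlcm]
    field_simp
  have h2 : ∑ d1 ∈ Icc 1 N, ∑ d2 ∈ Icc 1 N, 1 / (Nat.lcm d1 d2 : ℝ)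
      = ∑ l ∈ Icc 1 N, (Nat.totient l : ℝ) *
      (∑ d ∈ (Icc 1 N).filter (fun d => l ∣ d), 1 / (d : ℝ)) ^ 2 := by
    rw [h1]
    have h3 : ∀ d1 ∈ Icc 1 N, ∑ d2 ∈ Icc 1 N, ∑ l ∈ Icc 1 N,
      (if l ∣ d1 then 1 / (d1 : ℝ) else 0) * (if l ∣ d2 then 1 / (d2 : ℝ) else 0)
        * (Nat.totient l : ℝ) = ∑ l ∈ Icc 1 N, ∑ d2 ∈ Icc 1 N,
      (if l ∣ d1 then 1 / (d1 : ℝ) else 0) * (if l ∣ d2 then 1 / (d2 : ℝ) else 0)
        * (Nat.totient l : ℝ) := fun d1 _ => sum_comm
    rw [sum_congr rfl h3, sum_comm]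
    apply sum_congr rfl; intro l _
    rw [pow_two, sum_filter, sum_mul_sum, mul_sum]
    apply sum_congr rfl; intro d1 _
    rw [mul_sum]
    apply sum_congr rfl; intro d2 _
    ring
  rw [h2]
  calc ∑ l ∈ Icc 1 N, (Nat.totient l : ℝ) * (∑ d ∈ (Icc 1 N).filter (fun d => l ∣ d), 1 / (d : ℝ)) ^ 2
      ≤ ∑ l ∈ Icc 1 N, (1 / (l : ℝ)) * (1 + Real.log N) ^ 2 := by
        apply sum_le_sum
        intro l hl
        rw [mem_Icc] at hl
        have hl0 : (0 : ℝ) < l := by exact_mod_cast (by omega : 0 < l)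
        rw [sum_mult N l hl.1, mul_pow]
        have ht : (Nat.totient l : ℝ) ≤ l := by exact_mod_cast Nat.totient_le l
        have hs : ∑ m ∈ Icc 1 (N / l), 1 / (m : ℝ) ≤ 1 + Real.log N := by
          refine (harm_le (N / l)).trans ?_
          rcases Nat.eq_zero_or_pos (N / l) with h0 | h0
          · rw [h0]; simp; linarith
          · have : Real.log ((N / l : ℕ) : ℝ) ≤ Real.log N := by
              apply Real.log_le_log (by exact_mod_cast h0)
              exact_mod_cast Nat.div_le_self N l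
            linarith
        have hs0 : 0 ≤ ∑ m ∈ Icc 1 (N / l), 1 / (m : ℝ) := sum_nonneg fun _ _ => by positivity
        have hs2 : (∑ m ∈ Icc 1 (N / l), 1 / (m : ℝ)) ^ 2 ≤ (1 + Real.log N) ^ 2 :=
          pow_le_pow_left₀ hs0 hs 2
        calc (Nat.totient l : ℝ) * ((1 / (l : ℝ)) ^ 2 * (∑ m ∈ Icc 1 (N / l), 1 / (m : ℝ)) ^ 2)
            ≤ l * ((1 / (l : ℝ)) ^ 2 * (1 + Real.log N) ^ 2) := by gcongr
          _ = (1 / (l : ℝ)) * (1 + Real.log N) ^ 2 := by field_simp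
    _ = (∑ l ∈ Icc 1 N, 1 / (l : ℝ)) * (1 + Real.log N) ^ 2 := by rw [sum_mul]
    _ ≤ (1 + Real.log N) * (1 + Real.log N) ^ 2 := by
        gcongr
        exact harm_le N
    _ = (1 + Real.log N) ^ 3 := by ring

theorem sum_Ioc_le_log (K K' : ℕ) (hK : 1 ≤ K) (hKK : K ≤ K') :
    ∑ j ∈ Ioc K K', 1 / (j : ℝ) ≤ Real.log K' - Real.log K := by
  induction K', hKK using Nat.le_induction with
  | base => simp
  | succ n hn ih =>
    rw [sum_Ioc_succ_top hn]
    have hn0 : (0 : ℝ) < n := by exact_mod_cast (by omega : 0 < n)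
    have h1 : 1 / ((n + 1 : ℕ) : ℝ) ≤ Real.log ((n + 1 : ℕ) : ℝ) - Real.log n := by
      rw [← Real.log_div (by positivity) hn0.ne']
      have := Real.one_sub_inv_le_log_of_pos (x := ((n + 1 : ℕ) : ℝ) / n) (by positivity)
      refine le_trans (le_of_eq ?_) this
      push_cast
      field_simp
      ring
    linarith

theorem log_le_sum_Ioc (K K' : ℕ) (hKK : K ≤ K') :
    Real.log ((K' : ℝ) + 1) - Real.log ((K : ℝ) + 1) ≤ ∑ j ∈ Ioc K K', 1 / (j : ℝ) := by
  induction K', hKK using Nat.le_induction with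
  | base => simp
  | succ n hn ih =>
    rw [sum_Ioc_succ_top hn]
    have hn0 : (0 : ℝ) ≤ n := by positivity
    have h1 : Real.log (((n + 1 : ℕ) : ℝ) + 1) - Real.log ((n : ℝ) + 1) ≤ 1 / ((n + 1 : ℕ) : ℝ) := by
      rw [← Real.log_div (by positivity) (by positivity)]
      have := Real.log_le_sub_one_of_pos (x := (((n + 1 : ℕ) : ℝ) + 1) / ((n : ℝ) + 1)) (by positivity)
      refine this.trans (le_of_eq ?_)
      push_cast
      field_simp
      ring
    linarith

theorem stH : StH := by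
  refine ⟨2, by norm_num, ?_⟩
  intro P D hD hDP
  set K := P / D with hK
  set K' := 2 * P / D with hK'
  have hK1 : 1 ≤ K := (Nat.one_le_div_iff (by omega)).2 hDP
  have hlt : P < (K + 1) * D := by
    have := Nat.lt_div_mul_add (a := P) (b := D) (by omega)
    rw [← hK] at this; nlinarith
  have hle : K * D ≤ P := Nat.div_mul_le_self P D
  have hK'1 : 2 * K ≤ K' := by
    rw [hK', Nat.le_div_iff_mul_le (by omega)]; nlinarith
  have hK'2 : K' ≤ 2 * K + 1 := by
    rw [hK', ← Nat.lt_succ_iff, Nat.div_lt_iff_lt_mul (by omega)]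
    nlinarith
  have hKr : (1 : ℝ) ≤ K := by exact_mod_cast hK1
  have hD0 : (0 : ℝ) < D := by exact_mod_cast (by omega : 0 < D)
  have hP0 : (0 : ℝ) < P := by exact_mod_cast (by omega : 0 < P)
  have hinv : 1 / (K : ℝ) ≤ 2 * D / P := by
    rw [div_le_div_iff₀ (by linarith) hP0]
    have h1 : (P : ℝ) < (K + 1) * D := by exact_mod_cast hlt
    nlinarith
  have hup : ∑ j ∈ Ioc K K', 1 / (j : ℝ) ≤ Real.log 2 + 1 / K := by
    refine (sum_Ioc_le_log K K' hK1 (by omega)).trans ?_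
    have h1 : (K' : ℝ) ≤ 2 * K + 1 := by exact_mod_cast hK'2
    have h2 : Real.log K' ≤ Real.log (2 * K + 1) :=
      Real.log_le_log (by exact_mod_cast (by omega : 0 < K')) h1
    have h3 : Real.log (2 * K + 1) = Real.log (1 + 1 / (2 * K)) + Real.log 2 + Real.log K := by
      rw [← Real.log_mul (by positivity) (by norm_num), ← Real.log_mul (by positivity) (by positivity)]
      congr 1
      field_simp
    have h4 : Real.log (1 + 1 / (2 * (K : ℝ))) ≤ 1 / (2 * K) := by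
      have := Real.log_le_sub_one_of_pos (x := 1 + 1 / (2 * (K : ℝ))) (by positivity)
      linarith
    have h5 : 1 / (2 * (K : ℝ)) ≤ 1 / K := by
      apply one_div_le_one_div_of_le (by linarith); linarith
    linarith
  have hlo : Real.log 2 - 1 / K ≤ ∑ j ∈ Ioc K K', 1 / (j : ℝ) := by
    refine le_trans ?_ (log_le_sum_Ioc K K' (by omega))
    have h1 : (2 * K : ℝ) ≤ K' := by exact_mod_cast hK'1
    have h2 : Real.log (2 * K + 1) ≤ Real.log ((K' : ℝ) + 1) :=
      Real.log_le_log (by positivity) (by linarith)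
    have h3 : Real.log 2 + Real.log ((K : ℝ) + 1) = Real.log (1 + 1 / (2 * K + 1)) + Real.log (2 * K + 1) := by
      rw [← Real.log_mul (by norm_num) (by positivity), ← Real.log_mul (by positivity) (by positivity)]
      congr 1
      field_simp
      ring
    have h4 : Real.log (1 + 1 / (2 * (K : ℝ) + 1)) ≤ 1 / (2 * K + 1) := by
      have := Real.log_le_sub_one_of_pos (x := 1 + 1 / (2 * (K : ℝ) + 1)) (by positivity)
      linarith
    have h5 : 1 / (2 * (K : ℝ) + 1) ≤ 1 / K := by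
      apply one_div_le_one_div_of_le (by linarith); linarith
    linarith
  rw [abs_le]
  constructor <;> linarith

end Pool.Agent.Helper5.LP
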