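import Pool.Agent.Helper5.LP.St

namespace Pool.Agent.Helper5.LP

open Finset Filter

namespace S1

/-- the summand -/
noncomputable def ff (l : ℕ) : ℝ :=
  (ArithmeticFunction.moebius l : ℝ) ^ 2 / (Nat.totient l : ℝ)

theorem ff_nonneg (l : ℕ) : 0 ≤ ff l := by unfold ff; positivity

theorem ff_sq {l : ℕ} (h : Squarefree l) : ff l = 1 / (Nat.totient l : ℝ) := by
  unfold ff
  have h1 : ArithmeticFunction.moebius l ^ 2 = 1 :=
    (ArithmeticFunction.moebius_sq_eq_one_of_squarefree h)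
  have h2 : (ArithmeticFunction.moebius l : ℝ) ^ 2 = 1 := by exact_mod_cast h1
  rw [h2]

theorem ff_not {l : ℕ} (h : ¬ Squarefree l) : ff l = 0 := by
  unfold ff
  rw [ArithmeticFunction.moebius_eq_zero_of_not_squarefree h]
  simp

theorem tot_pos {n : ℕ} (h : n ≠ 0) : (0 : ℝ) < Nat.totient n := by
  exact_mod_cast Nat.totient_pos.2 (Nat.pos_of_ne_zero h)

theorem step {N d k : ℕ} (hd : Squarefree d) (hk : k ∈ d.divisors) :
    (Nat.totient (d / k) : ℝ) * ∑ l ∈ (Icc 1 N).filter (fun l => d ∣ l ∧ Squarefree l), ff l ≤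
      ∑ l ∈ (Icc 1 N).filter (fun l => Nat.gcd l d = k), ff l := by
  have hkd : k ∣ d := (Nat.mem_divisors.1 hk).1
  have hd0 : d ≠ 0 := hd.ne_zero
  have hk0 : k ≠ 0 := by rintro rfl; exact hd0 (Nat.eq_zero_of_zero_dvd hkd)
  have hks : Squarefree k := hd.squarefree_of_dvd hkd
  obtain ⟨j, hj⟩ := hkd
  have hj0 : j ≠ 0 := by rintro rfl; rw [mul_zero] at hj; exact hd0 hj
  have hdk : d / k = j := by rw [hj, Nat.mul_div_cancel_left _ (Nat.pos_of_ne_zero hk0)]
  have hkj : Nat.Coprime k j := by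
    rw [hj, Nat.squarefree_mul_iff] at hd
    exact hd.1
  have hphi : (Nat.totient d : ℝ) = Nat.totient k * Nat.totient j := by
    rw [hj, Nat.totient_mul hkj]; push_cast; ring
  have key : ∀ l ∈ (Icc 1 N).filter (fun l => d ∣ l ∧ Squarefree l),
      l / d * k ∈ (Icc 1 N).filter (fun l => Nat.gcd l d = k) ∧
        (Nat.totient (d / k) : ℝ) * ff l = ff (l / d * k) := by
    intro l hl
    rw [mem_filter, mem_Icc] at hl
    obtain ⟨⟨hl1, hl2⟩, ⟨m, rfl⟩, hl4⟩ := hl
    have hm0 : m ≠ 0 := by rintro rfl; omega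
    rw [Nat.mul_div_cancel_left _ (Nat.pos_of_ne_zero hd0)]
    have hl5 := (Nat.squarefree_mul_iff.1 hl4)
    have hmk : Nat.Coprime m k := (Nat.Coprime.coprime_dvd_left ⟨j, hj⟩ hl5.1).symm
    have hmks : Squarefree (m * k) := Nat.squarefree_mul_iff.2 ⟨hmk, hl5.2.2, hks⟩
    refine ⟨?_, ?_⟩
    · rw [mem_filter, mem_Icc]
      refine ⟨⟨Nat.mul_pos (Nat.pos_of_ne_zero hm0) (Nat.pos_of_ne_zero hk0), ?_⟩, ?_⟩
      · refine le_trans ?_ hl2
        rw [mul_comm d m]
        exact Nat.mul_le_mul_left m (Nat.le_of_dvd (Nat.pos_of_ne_zero hd0) ⟨j, hj⟩)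
      · rw [mul_comm m k, Nat.Coprime.gcd_mul_right_cancel k hl5.1.symm]
        exact Nat.gcd_eq_left ⟨j, hj⟩
    · rw [ff_sq hl4, ff_sq hmks, hdk, Nat.totient_mul hl5.1, Nat.totient_mul hmk]
      push_cast
      rw [hphi]
      have h1 := tot_pos hk0
      have h2 := tot_pos hj0
      have h3 := tot_pos hm0
      field_simp
  rw [mul_sum, sum_congr rfl (fun l hl => (key l hl).2),
    ← sum_image (s := (Icc 1 N).filter (fun l => d ∣ l ∧ Squarefree l))
      (g := fun l => l / d * k) (f := ff)]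
  · refine sum_le_sum_of_subset_of_nonneg ?_ fun l _ _ => ff_nonneg l
    intro x hx
    obtain ⟨l, hl, rfl⟩ := mem_image.1 hx
    exact (key l hl).1
  · intro l hl l' hl' h
    have h1 : d ∣ l := (mem_filter.1 (mem_coe.1 hl)).2.1
    have h2 : d ∣ l' := (mem_filter.1 (mem_coe.1 hl')).2.1
    have h3 : l / d = l' / d := Nat.eq_of_mul_eq_mul_right (Nat.pos_of_ne_zero hk0) h
    rw [← Nat.div_mul_cancel h1, ← Nat.div_mul_cancel h2, h3]

theorem claim {N d : ℕ} (hd : Squarefree d) :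
    (d : ℝ) * ∑ l ∈ (Icc 1 N).filter (fun l => d ∣ l ∧ Squarefree l), ff l ≤ Pool.MR.selG N := by
  have hd0 : d ≠ 0 := hd.ne_zero
  have h1 : Pool.MR.selG N = ∑ k ∈ d.divisors, ∑ l ∈ (Icc 1 N).filter (fun l => Nat.gcd l d = k),
      ff l := by
    rw [sum_fiberwise_of_maps_to]
    · rfl
    · intro l _
      rw [Nat.mem_divisors]
      exact ⟨Nat.gcd_dvd_right l d, hd0⟩
  have h2 : (d : ℝ) = ∑ k ∈ d.divisors, (Nat.totient (d / k) : ℝ) := by
    have h3 := Nat.sum_totient d
    rw [← Nat.sum_div_divisors d Nat.totient] at h3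
    exact_mod_cast h3.symm
  rw [h1]
  conv_lhs => rw [h2]
  rw [sum_mul]
  exact sum_le_sum fun k hk => step hd hk

end S1

theorem stS1 : StS1 := by
  intro N d hN
  have hG : 0 < Pool.MR.selG N := lt_of_lt_of_le one_pos (Pool.MR.selG_ge_one N hN)
  by_cases hd : Squarefree d
  · have h1 := S1.claim (N := N) hd
    unfold Pool.MR.selL
    rw [abs_mul, abs_of_nonneg (Nat.cast_nonneg d : (0 : ℝ) ≤ d)]
    have h2 : |∑ l ∈ (Icc 1 N).filter (fun l => d ∣ l),
        (ArithmeticFunction.moebius (l / d) : ℝ) * Pool.MR.selY N l| ≤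
        (∑ l ∈ (Icc 1 N).filter (fun l => d ∣ l ∧ Squarefree l), S1.ff l) / Pool.MR.selG N := by
      refine (abs_sum_le_sum_abs _ _).trans ?_
      rw [← filter_filter, sum_filter (fun l => Squarefree l), sum_div]
      refine sum_le_sum fun l hl => ?_
      rw [mem_filter, mem_Icc] at hl
      unfold Pool.MR.selY
      rw [abs_mul, abs_div]
      split_ifs with h3
      · rw [S1.ff_sq h3, div_div]
        have h4 : (0 : ℝ) < Nat.totient l := S1.tot_pos (by omega)
        rw [abs_of_pos (by positivity : (0 : ℝ) < (Nat.totient l : ℝ) * Pool.MR.selG N),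
          ← mul_div_assoc]
        refine div_le_div_of_nonneg_right ?_ (by positivity)
        exact mul_le_one₀ (Pool.MR.abs_moebius_le_one' _) (abs_nonneg _)
          (Pool.MR.abs_moebius_le_one' _)
      · rw [ArithmeticFunction.moebius_eq_zero_of_not_squarefree h3]
        simp
    calc (d : ℝ) * _ ≤ d * ((∑ l ∈ (Icc 1 N).filter (fun l => d ∣ l ∧ Squarefree l), S1.ff l) /
          Pool.MR.selG N) := mul_le_mul_of_nonneg_left h2 (Nat.cast_nonneg d)
      _ = (d * ∑ l ∈ (Icc 1 N).filter (fun l => d ∣ l ∧ Squarefree l), S1.ff l) /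
          Pool.MR.selG N := by rw [mul_div_assoc]
      _ ≤ 1 := by rw [div_le_one hG]; exact h1
  · have h1 : Pool.MR.selL N d = 0 := by
      unfold Pool.MR.selL
      rw [sum_eq_zero, mul_zero]
      intro l hl
      rw [mem_filter] at hl
      have h2 : ¬ Squarefree l := fun h => hd (h.squarefree_of_dvd hl.2)
      unfold Pool.MR.selY
      rw [ArithmeticFunction.moebius_eq_zero_of_not_squarefree h2]
      simp
    rw [h1, abs_zero]
    exact zero_le_one

end Pool.Agent.Helper5.LP
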