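import Pool.Agent.Helper5.LP.St

/-!
# Module S2: lower bound for the Selberg sum
-/

namespace Pool.Agent.Helper5.LP

open Finset Filter

namespace S2

theorem geom_le (p A : ℕ) (hp : 2 ≤ p) :
    ∑ a ∈ Icc 1 A, 1 / (p : ℝ) ^ a ≤ 1 / ((p : ℝ) - 1) := by
  have hp' : (2 : ℝ) ≤ p := by exact_mod_cast hp
  have h1 : ∀ B : ℕ, ∑ a ∈ Icc 1 B, 1 / (p : ℝ) ^ a =
      1 / ((p : ℝ) - 1) - 1 / (((p : ℝ) - 1) * p ^ B) := by
    intro B
    induction B with
    | zero => simp
    | succ B ih =>
      rw [Finset.sum_Icc_succ_top (by omega), ih]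
      have : (p : ℝ) - 1 ≠ 0 := by linarith
      have : (p : ℝ) ≠ 0 := by linarith
      field_simp
      ring
  rw [h1]
  have : 0 < ((p : ℝ) - 1) * p ^ A := by
    have : (0 : ℝ) < p - 1 := by linarith
    positivity
  have : 0 ≤ 1 / (((p : ℝ) - 1) * p ^ A) := by positivity
  linarith

/-- numbers with given prime factors -/
theorem claim (P : Finset ℕ) : (∀ p ∈ P, p.Prime) → ∀ S : Finset ℕ,
    (∀ n ∈ S, n ≠ 0 ∧ n.primeFactors = P) →
    ∑ n ∈ S, 1 / (n : ℝ) ≤ ∏ p ∈ P, 1 / ((p : ℝ) - 1) := by
  induction P using Finset.induction_on with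
  | empty =>
    intro _ S hS
    rw [Finset.prod_empty]
    have hsub : S ⊆ {1} := by
      intro n hn
      obtain ⟨h0, h1⟩ := hS n hn
      rw [Finset.mem_singleton]
      rcases Nat.primeFactors_eq_empty.1 h1 with h | h
      · exact absurd h h0
      · exact h
    refine (Finset.sum_le_sum_of_subset_of_nonneg hsub (fun _ _ _ => by positivity)).trans ?_
    simp
  | insert p P hp ih =>
    intro hP S hS
    have hpp : p.Prime := hP p (Finset.mem_insert_self _ _)
    have hp2 := hpp.two_le
    have hPP : ∀ q ∈ P, q.Prime := fun q hq => hP q (Finset.mem_insert_of_mem hq)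
    rw [Finset.prod_insert hp]
    set co : ℕ → ℕ := fun n => n / p ^ n.factorization p with hco
    have hself : ∀ n, p ^ n.factorization p * co n = n :=
      fun n => Nat.ordProj_mul_ordCompl_eq_self n p
    set S' : Finset ℕ := S.image co with hS'
    set A : ℕ := S.sup (fun n => n.factorization p) with hA
    have hS'1 : ∀ m ∈ S', m ≠ 0 ∧ m.primeFactors = P := by
      intro m hm
      obtain ⟨n, hn, rfl⟩ := Finset.mem_image.1 hm
      obtain ⟨h0, h1⟩ := hS n hn
      refine ⟨(Nat.ordCompl_pos p h0).ne', ?_⟩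
      rw [← Nat.support_factorization, hco, Nat.factorization_ordCompl, Finsupp.support_erase,
        Nat.support_factorization, h1, Finset.erase_insert hp]
    have h3 : ∑ n ∈ S, 1 / (n : ℝ) = ∑ x ∈ S.image (fun n => (n.factorization p, co n)),
        1 / (p : ℝ) ^ x.1 * (1 / (x.2 : ℝ)) := by
      rw [Finset.sum_image]
      · refine Finset.sum_congr rfl fun n hn => ?_
        have h4 : (p : ℝ) ^ n.factorization p * (co n : ℝ) = (n : ℝ) := by
          exact_mod_cast hself n
        rw [one_div_mul_one_div]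
        show 1 / (n : ℝ) = 1 / ((p : ℝ) ^ n.factorization p * (co n : ℝ))
        rw [h4]
      · intro n _ n' _ h
        have h1 : n.factorization p = n'.factorization p := (Prod.ext_iff.1 h).1
        have h2 : co n = co n' := (Prod.ext_iff.1 h).2
        rw [← hself n, ← hself n', h1, h2]
    have h5 : S.image (fun n => (n.factorization p, co n)) ⊆ Icc 1 A ×ˢ S' := by
      intro x hx
      obtain ⟨n, hn, rfl⟩ := Finset.mem_image.1 hx
      obtain ⟨h0, h1⟩ := hS n hn
      rw [Finset.mem_product, Finset.mem_Icc]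
      refine ⟨⟨?_, ?_⟩, Finset.mem_image_of_mem _ hn⟩
      · have : p ∈ n.primeFactors := by rw [h1]; exact Finset.mem_insert_self _ _
        exact hpp.factorization_pos_of_dvd h0 (Nat.dvd_of_mem_primeFactors this)
      · exact Finset.le_sup (f := fun n => n.factorization p) hn
    rw [h3]
    refine (Finset.sum_le_sum_of_subset_of_nonneg h5 (fun _ _ _ => by positivity)).trans ?_
    rw [Finset.sum_product]
    show ∑ a ∈ Icc 1 A, ∑ m ∈ S', 1 / (p : ℝ) ^ a * (1 / (m : ℝ)) ≤ _
    rw [← Finset.sum_mul_sum]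
    refine mul_le_mul (geom_le p A hp2) (ih hPP S' hS'1)
      (Finset.sum_nonneg fun _ _ => by positivity) ?_
    have : (2 : ℝ) ≤ p := by exact_mod_cast hp2
    have : (0 : ℝ) < p - 1 := by linarith
    positivity

theorem squarefree_rad (n : ℕ) : Squarefree (∏ p ∈ n.primeFactors, p) := by
  have key : ∀ P : Finset ℕ, (∀ p ∈ P, p.Prime) → Squarefree (∏ p ∈ P, p) := by
    intro P
    induction P using Finset.induction_on with
    | empty => intro _; rw [Finset.prod_empty]; exact squarefree_one
    | insert p P hp ih =>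
      intro hP
      have hpp : p.Prime := hP p (Finset.mem_insert_self _ _)
      have hPP : ∀ q ∈ P, q.Prime := fun q hq => hP q (Finset.mem_insert_of_mem hq)
      rw [Finset.prod_insert hp, Nat.squarefree_mul]
      · exact ⟨hpp.squarefree, ih hPP⟩
      · refine Nat.Coprime.prod_right fun q hq => ?_
        rw [Nat.coprime_primes hpp (hPP q hq)]
        rintro rfl
        exact hp hq
  exact key _ fun p hp => Nat.prime_of_mem_primeFactors hp

end S2

theorem stS2 : StS2 := by
  intro N hN
  have h1 : Real.log (N + 1) ≤ ∑ n ∈ Icc 1 N, (1 : ℝ) / n := by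
    have := log_add_one_le_harmonic N
    rw [harmonic_eq_sum_Icc] at this
    push_cast at this
    refine this.trans (le_of_eq ?_)
    apply sum_congr rfl; intro n _; rw [one_div]
  refine h1.trans ?_
  set rad : ℕ → ℕ := fun n => ∏ p ∈ n.primeFactors, p with hrad
  have h2 : ∀ n ∈ Icc 1 N, rad n ∈ Icc 1 N := by
    intro n hn
    rw [Finset.mem_Icc] at hn ⊢
    exact ⟨Nat.pos_of_ne_zero (S2.squarefree_rad n).ne_zero,
      (Nat.le_of_dvd (by omega) (Nat.prod_primeFactors_dvd n)).trans hn.2⟩
  rw [← Finset.sum_fiberwise_of_maps_to h2, Pool.MR.selG]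
  refine Finset.sum_le_sum fun l _ => ?_
  rcases Finset.eq_empty_or_nonempty ((Icc 1 N).filter (fun n => rad n = l)) with he | ⟨n, hn⟩
  · rw [he, Finset.sum_empty]
    positivity
  · rw [Finset.mem_filter, Finset.mem_Icc] at hn
    have hsq : Squarefree l := by rw [← hn.2]; exact S2.squarefree_rad n
    have hpf : ∀ n, rad n = l → n.primeFactors = l.primeFactors := by
      intro n h
      rw [← h, hrad, Nat.primeFactors_prod_primeFactors]
    have hmu : (ArithmeticFunction.moebius l : ℝ) ^ 2 = 1 := by
      have := ArithmeticFunction.moebius_sq_eq_one_of_squarefree hsq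
      exact_mod_cast this
    have hphi : (Nat.totient l : ℝ) = ∏ p ∈ l.primeFactors, ((p : ℝ) - 1) := by
      rw [Nat.totient_eq_div_primeFactors_mul, Nat.prod_primeFactors_of_squarefree hsq,
        Nat.div_self (Nat.pos_of_ne_zero hsq.ne_zero), one_mul, Nat.cast_prod]
      refine Finset.prod_congr rfl fun p hp => ?_
      rw [Nat.cast_sub (Nat.prime_of_mem_primeFactors hp).one_le, Nat.cast_one]
    rw [hmu, hphi]
    refine (S2.claim l.primeFactors (fun p hp => Nat.prime_of_mem_primeFactors hp) _ ?_).trans ?_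
    · intro m hm
      rw [Finset.mem_filter, Finset.mem_Icc] at hm
      exact ⟨by omega, hpf m hm.2⟩
    · rw [Finset.prod_div_distrib, Finset.prod_const_one]

end Pool.Agent.Helper5.LP
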