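import Pool.Agent.Helper5.LP.St

/-!
# Project LP, module T: large prime factors in long intervals
-/

namespace Pool.Agent.Helper5.LP

open Finset Filter

/-- `(v / k) ^ k ≤ C(v, k)` -/
lemma tT_div_pow_le_choose (k : ℕ) : ∀ v : ℕ, k ≤ v →
    ((v : ℝ) / k) ^ k ≤ (v.choose k : ℝ) := by
  induction k with
  | zero => intro v _; simp
  | succ k ih =>
    intro v hv
    obtain ⟨w, rfl⟩ : ∃ w, v = w + 1 := ⟨v - 1, by omega⟩
    have hkw : k ≤ w := by omega
    have h1 := Nat.add_one_mul_choose_eq w k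
    have h2 : ((w : ℝ) + 1) * (w.choose k : ℝ) = ((w + 1).choose (k + 1) : ℝ) * ((k : ℝ) + 1) := by
      exact_mod_cast h1
    have hk1 : (0 : ℝ) < (k : ℝ) + 1 := by positivity
    have h3 : ((w + 1).choose (k + 1) : ℝ) = ((w : ℝ) + 1) / ((k : ℝ) + 1) * (w.choose k : ℝ) := by
      field_simp
      linarith
    rw [h3]
    push_cast
    rw [pow_succ, mul_comm]
    apply mul_le_mul_of_nonneg_left _ (by positivity)
    refine le_trans ?_ (ih w hkw)
    rcases Nat.eq_zero_or_pos k with rfl | hk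
    · simp
    · apply pow_le_pow_left₀ (by positivity)
      have hk' : (0 : ℝ) < k := by exact_mod_cast hk
      rw [div_le_div_iff₀ hk1 hk']
      have : (k : ℝ) ≤ w := by exact_mod_cast hkw
      nlinarith

/-- `4 ^ (L + 1) ≤ 4 (L + 1) C(v, L + 1)` for `v ≥ 2 L + 1` -/
lemma tT_four_pow_le (L v : ℕ) (hv : 2 * L + 1 ≤ v) :
    4 ^ (L + 1) ≤ 4 * (L + 1) * v.choose (L + 1) := by
  have h1 := Nat.four_pow_le_two_mul_self_mul_centralBinom (L + 1) (by omega)
  have h2 : Nat.centralBinom (L + 1) = 2 * (2 * L + 1).choose (L + 1) := by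
    rw [Nat.centralBinom_eq_two_mul_choose]
    have : 2 * (L + 1) = (2 * L + 1) + 1 := by ring
    rw [this, Nat.choose_succ_succ, Nat.choose_symm_half]
    ring
  have h3 : (2 * L + 1).choose (L + 1) ≤ v.choose (L + 1) := Nat.choose_le_choose (L + 1) hv
  calc 4 ^ (L + 1) ≤ 2 * (L + 1) * Nat.centralBinom (L + 1) := h1
    _ = 4 * (L + 1) * (2 * L + 1).choose (L + 1) := by rw [h2]; ring
    _ ≤ _ := Nat.mul_le_mul_left _ h3

lemma tT_choose_dvd (L v : ℕ) (hL : L < v) : v.choose (L + 1) ∣ ∏ m ∈ Icc (v - L) v, m := by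
  have h1 : Icc (v - L) v = Ico (v - L) (v + 1) := by
    ext m; simp only [mem_Icc, mem_Ico]; omega
  rw [h1, Finset.prod_Ico_eq_prod_range]
  have h2 : v + 1 - (v - L) = L + 1 := by omega
  rw [h2, ← Nat.ascFactorial_eq_prod_range, Nat.ascFactorial_eq_factorial_mul_choose']
  have h3 : v - L + (L + 1) - 1 = v := by omega
  rw [h3]
  exact Dvd.intro_left _ rfl

/-- upper bound for the logarithm of a binomial coefficient all of whose prime factors are small -/
lemma tT_log_choose_le (v k L : ℕ) (hk : k ≤ v) (hv : 1 ≤ v)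
    (h : ∀ p : ℕ, p.Prime → p ∣ v.choose k → p ≤ L) :
    Real.log (v.choose k) ≤
      Chebyshev.theta L + (Nat.primeCounting (Nat.sqrt v) : ℝ) * Real.log v := by
  have hn : v.choose k ≠ 0 := (Nat.choose_pos hk).ne'
  have hlv : 0 ≤ Real.log v := Real.log_natCast_nonneg v
  rw [Real.log_nat_eq_sum_factorization, Finsupp.sum, Nat.support_factorization]
  have h1 : ∀ p ∈ (v.choose k).primeFactors,
      ((v.choose k).factorization p : ℝ) * Real.log p ≤
        Real.log p + if p ≤ Nat.sqrt v then Real.log v else 0 := by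
    intro p hp
    have hpp := Nat.prime_of_mem_primeFactors hp
    have hlp : 0 ≤ Real.log p := Real.log_natCast_nonneg p
    by_cases hps : p ≤ Nat.sqrt v
    · rw [if_pos hps]
      have h2 : p ^ (v.choose k).factorization p ≤ v := Nat.pow_factorization_choose_le (by omega)
      have h3 : Real.log ((p : ℝ) ^ (v.choose k).factorization p) ≤ Real.log v := by
        apply Real.log_le_log
        · have : (0 : ℝ) < p := by exact_mod_cast hpp.pos
          positivity
        · exact_mod_cast h2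
      rw [Real.log_pow] at h3
      linarith
    · rw [if_neg hps]
      have h2 : v < p ^ 2 := by
        have := Nat.sqrt_lt'.mp (not_le.mp hps)
        exact this
      have h3 : (v.choose k).factorization p ≤ 1 := Nat.factorization_choose_le_one h2
      have h4 : ((v.choose k).factorization p : ℝ) ≤ 1 := by exact_mod_cast h3
      nlinarith
  refine (Finset.sum_le_sum h1).trans ?_
  rw [Finset.sum_add_distrib]
  apply add_le_add
  · rw [Chebyshev.theta_eq_sum_primesLE_log]
    apply Finset.sum_le_sum_of_subset_of_nonneg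
    · intro p hp
      rw [Nat.mem_primesLE]
      have hpp := Nat.prime_of_mem_primeFactors hp
      exact ⟨h p hpp (Nat.dvd_of_mem_primeFactors hp), hpp⟩
    · intro p _ _
      exact Real.log_natCast_nonneg p
  · rw [← Finset.sum_filter, Finset.sum_const, nsmul_eq_mul]
    apply mul_le_mul_of_nonneg_right _ hlv
    have h5 : ((v.choose k).primeFactors.filter (fun p => p ≤ Nat.sqrt v)) ⊆
        Nat.primesLE (Nat.sqrt v) := by
      intro p hp
      rw [mem_filter] at hp
      rw [Nat.mem_primesLE]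
      exact ⟨hp.2, Nat.prime_of_mem_primeFactors hp.1⟩
    have h6 := Finset.card_le_card h5
    have h7 : (Nat.primesLE (Nat.sqrt v)).card = Nat.primeCounting (Nat.sqrt v) := by
      exact Nat.primesLE_card_eq_primeCounting _
    rw [h7] at h6
    exact_mod_cast h6

/-- the contribution of the primes up to `√v` -/
lemma tT_pi_sqrt_mul_log (v : ℕ) (hv : 2 ≤ v) :
    (Nat.primeCounting (Nat.sqrt v) : ℝ) * Real.log v ≤ 10 * √(v : ℝ) := by
  have hv1 : (1 : ℝ) < v := by exact_mod_cast (by omega : 1 < v)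
  have hv0 : (0 : ℝ) ≤ v := by linarith
  have hs1 : 1 < √(v : ℝ) := by
    rw [show (1 : ℝ) = √1 by simp]
    exact Real.sqrt_lt_sqrt (by norm_num) hv1
  have h1 := Chebyshev.pi_le_log4_mul_div hs1
  rw [Real.nat_floor_real_sqrt_eq_nat_sqrt] at h1
  have hlv : 0 < Real.log v := Real.log_pos hv1
  have hl : Real.log √√(v : ℝ) = Real.log v / 4 := by
    rw [Real.log_sqrt (Real.sqrt_nonneg _), Real.log_sqrt hv0]
    ring
  rw [hl] at h1
  set s := √√(v : ℝ) with hs
  have hs0 : 0 < s := Real.sqrt_pos.mpr (by linarith)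
  have hss : s * s = √(v : ℝ) := Real.mul_self_sqrt (Real.sqrt_nonneg _)
  have hls : Real.log v ≤ 4 * s := by
    have := Real.log_le_sub_one_of_pos hs0
    linarith
  have h4 : Real.log 4 ≤ 1.3863 := by
    have : (4 : ℝ) = 2 ^ 2 := by norm_num
    rw [this, Real.log_pow]
    have := Real.log_two_lt_d9
    push_cast
    linarith
  calc (Nat.primeCounting (Nat.sqrt v) : ℝ) * Real.log v
      ≤ (Real.log 4 * √(v : ℝ) / (Real.log v / 4) + s) * Real.log v :=
        mul_le_mul_of_nonneg_right h1 hlv.le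
    _ = 4 * Real.log 4 * √(v : ℝ) + s * Real.log v := by
        field_simp
    _ ≤ 4 * 1.3863 * √(v : ℝ) + s * (4 * s) := by
        have hq : 0 ≤ √(v : ℝ) := Real.sqrt_nonneg _
        gcongr
    _ = 4 * 1.3863 * √(v : ℝ) + 4 * √(v : ℝ) := by rw [← hss]; ring
    _ ≤ _ := by
        have hq : 0 ≤ √(v : ℝ) := Real.sqrt_nonneg _
        linarith

/-- **Module T.** -/
theorem stT (hT1 : StT1) : StT := by
  unfold StT1 at hT1
  unfold StT
  rw [Filter.eventually_atTop] at hT1
  obtain ⟨K0, hK0⟩ := hT1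
  set B : ℝ := Real.exp 13 with hB
  have hBpos : 0 < B := Real.exp_pos _
  obtain ⟨N1, hN1⟩ := exists_nat_gt (((4 + 10 * √B) / 0.136) ^ 2)
  set N0 := max K0 N1 + 2 with hN0
  rw [Filter.eventually_atTop]
  refine ⟨N0 ^ 2, fun v hv L hvL hLv => ?_⟩
  have hLN : N0 ≤ L := by
    have : N0 ^ 2 ≤ L ^ 2 := hv.trans hvL
    exact (Nat.pow_le_pow_iff_left (by norm_num)).mp this
  have hLK : K0 ≤ L := le_trans (by omega) hLN
  have hL1 : N1 ≤ L := le_trans (by omega) hLN
  have hL2 : 2 ≤ L := le_trans (by omega) hLN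
  by_contra hcon
  push Not at hcon
  set k := L + 1 with hk
  have hkv : k ≤ v := by omega
  have hdvd := tT_choose_dvd L v (by omega)
  have hsmall : ∀ p : ℕ, p.Prime → p ∣ v.choose k → p ≤ L := by
    intro p hp hpd
    by_contra hlt
    exact hcon p hp (by omega) (hpd.trans hdvd)
  have hup := tT_log_choose_le v k L hkv (by omega) hsmall
  have hpi := tT_pi_sqrt_mul_log v (by omega)
  have hsqL : √(v : ℝ) ≤ L := by
    rw [Real.sqrt_le_left (by positivity)]
    exact_mod_cast hvL
  have hLk : (L : ℝ) + 1 = k := by rw [hk]; push_cast; ring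
  have hk0 : (0 : ℝ) < k := by rw [← hLk]; positivity
  have hv0 : (0 : ℝ) < v := by
    have : 0 < v := by omega
    exact_mod_cast this
  have hlog4u : Real.log 4 ≤ 1.3863 := by
    have : (4 : ℝ) = 2 ^ 2 := by norm_num
    rw [this, Real.log_pow]
    have := Real.log_two_lt_d9
    push_cast
    linarith
  have hlog4l : 1.386 ≤ Real.log 4 := by
    have : (4 : ℝ) = 2 ^ 2 := by norm_num
    rw [this, Real.log_pow]
    have := Real.log_two_gt_d9
    push_cast
    linarith
  rcases lt_or_ge (B * k) (v : ℝ) with hA | hBc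
  · -- case A
    have h1 := tT_div_pow_le_choose k v hkv
    have hvk : B < (v : ℝ) / k := by rw [lt_div_iff₀ hk0]; exact hA
    have h2 : (k : ℝ) * Real.log ((v : ℝ) / k) ≤ Real.log (v.choose k) := by
      rw [← Real.log_pow]
      exact Real.log_le_log (by positivity) h1
    have h3 : 13 < Real.log ((v : ℝ) / k) := by
      rw [Real.lt_log_iff_exp_lt (by positivity)]
      exact hvk
    have h4 : Chebyshev.theta L ≤ Real.log 4 * L := Chebyshev.theta_le_log4_mul_x (by positivity)
    have hL0 : (0 : ℝ) ≤ L := by positivity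
    nlinarith
  · -- case B
    have h1 := tT_four_pow_le L v (by omega)
    have h1' : (4 : ℝ) ^ k ≤ 4 * k * (v.choose k : ℝ) := by
      rw [hk]
      exact_mod_cast h1
    have hC0 : (0 : ℝ) < (v.choose k : ℝ) := by exact_mod_cast Nat.choose_pos hkv
    have h2 : (k : ℝ) * Real.log 4 ≤ Real.log (4 * k) + Real.log (v.choose k) := by
      rw [← Real.log_pow, ← Real.log_mul (by positivity) (by positivity)]
      exact Real.log_le_log (by positivity) h1'
    have h3 : Real.log (4 * k) ≤ 4 * √(k : ℝ) := by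
      have h31 : Real.log (√(4 * (k : ℝ))) ≤ √(4 * (k : ℝ)) - 1 :=
        Real.log_le_sub_one_of_pos (Real.sqrt_pos.mpr (by positivity))
      rw [Real.log_sqrt (by positivity)] at h31
      have h32 : √(4 * (k : ℝ)) = 2 * √(k : ℝ) := by
        rw [Real.sqrt_mul (by norm_num)]
        rw [show (4 : ℝ) = 2 ^ 2 by norm_num, Real.sqrt_sq (by norm_num)]
      rw [h32] at h31
      linarith
    have h4 : Chebyshev.theta L ≤ 1.25 * L := hK0 L hLK
    have h5 : √(v : ℝ) ≤ √B * √(k : ℝ) := by
      rw [← Real.sqrt_mul hBpos.le]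
      exact Real.sqrt_le_sqrt hBc
    have h6 : 0.136 * (k : ℝ) ≤ (4 + 10 * √B) * √(k : ℝ) := by
      nlinarith
    have hsk : 0 < √(k : ℝ) := Real.sqrt_pos.mpr hk0
    have h7 : 0.136 * √(k : ℝ) ≤ 4 + 10 * √B := by
      have h71 : √(k : ℝ) * √(k : ℝ) = k := Real.mul_self_sqrt hk0.le
      by_contra hc
      push Not at hc
      have := mul_lt_mul_of_pos_right hc hsk
      rw [mul_assoc, h71] at this
      linarith
    have h8 : √(k : ℝ) ≤ (4 + 10 * √B) / 0.136 := by
      rw [le_div_iff₀ (by norm_num)]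
      linarith
    have h9 : (k : ℝ) ≤ ((4 + 10 * √B) / 0.136) ^ 2 := by
      have h91 : √(k : ℝ) ^ 2 = k := Real.sq_sqrt hk0.le
      rw [← h91]
      exact pow_le_pow_left₀ hsk.le h8 2
    have h10 : (N1 : ℝ) ≤ L := by exact_mod_cast hL1
    linarith

end Pool.Agent.Helper5.LP
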