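import Pool.Agent.Helper5.LP.St

/-!
# Module T1: Chebyshev's upper bound with a constant below `log 4`
-/

namespace Pool.Agent.Helper5.LP

open Finset Filter Nat

namespace T1

/-- the floor inequality -/
theorem floor_ineq (n q : ℕ) (hq : 0 < q) : 3 * n / q + 2 * (2 * n / q) ≤ 6 * n / q + n / q := by
  obtain ⟨a, b, hb, rfl⟩ : ∃ a b, b < q ∧ n = b + q * a :=
    ⟨n / q, n % q, Nat.mod_lt _ hq, (Nat.mod_add_div n q).symm⟩
  have e : ∀ c, c * (b + q * a) / q = c * b / q + c * a := by
    intro c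
    rw [mul_add, ← mul_assoc, mul_comm c q, mul_assoc, Nat.add_mul_div_left _ _ hq]
  have e1 : (b + q * a) / q = a := by
    rw [Nat.add_mul_div_left _ _ hq, Nat.div_eq_of_lt hb, zero_add]
  rw [e, e, e, e1]
  have hv : 2 * b / q < 2 := by rw [Nat.div_lt_iff_lt_mul hq]; omega
  have hu : 3 * b / q < 3 := by rw [Nat.div_lt_iff_lt_mul hq]; omega
  have hv1 : 2 * b / q * q ≤ 2 * b := Nat.div_mul_le_self _ _
  have hu1 : 3 * b / q * q ≤ 3 * b := Nat.div_mul_le_self _ _
  have h1 : 3 * b / q + 2 * (2 * b / q) ≤ 6 * b / q := by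
    rw [Nat.le_div_iff_mul_le hq]
    generalize 2 * b / q = v at *
    generalize 3 * b / q = u at *
    interval_cases v <;> interval_cases u <;> omega
  omega

/-- the floor inequality with a gain -/
theorem floor_ineq' (n p : ℕ) (h1 : 2 * n < p) (h2 : p ≤ 6 * n) :
    3 * n / p + 2 * (2 * n / p) + 1 ≤ 6 * n / p + n / p := by
  have hp : 0 < p := by omega
  rw [Nat.div_eq_of_lt h1]
  by_cases h3 : p ≤ 3 * n
  · have e1 : 3 * n / p < 2 := by rw [Nat.div_lt_iff_lt_mul hp]; omega
    have e2 : 2 ≤ 6 * n / p := by rw [Nat.le_div_iff_mul_le hp]; omega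
    generalize n / p = c
    omega
  · have e1 : 3 * n / p = 0 := Nat.div_eq_of_lt (by omega)
    have e2 : 1 ≤ 6 * n / p := by rw [Nat.le_div_iff_mul_le hp]; omega
    generalize n / p = c
    omega

/-- the product of the primes in `(2 n, 6 n]` -/
def QQ (n : ℕ) : ℕ := ∏ p ∈ (Ioc (2 * n) (6 * n)).filter Nat.Prime, p

theorem QQ_pos (n : ℕ) : 0 < QQ n :=
  Finset.prod_pos fun _ hp => (Finset.mem_filter.1 hp).2.pos

theorem QQ_fact (n p : ℕ) (hp : p.Prime) :
    (QQ n).factorization p = if 2 * n < p ∧ p ≤ 6 * n then 1 else 0 := by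
  rw [QQ, Nat.factorization_prod (fun q hq => (Finset.mem_filter.1 hq).2.ne_zero),
    Finset.sum_apply']
  split_ifs with h
  · rw [Finset.sum_eq_single p]
    · rw [hp.factorization]; simp
    · intro q hq hne
      rw [(Finset.mem_filter.1 hq).2.factorization, Finsupp.single_apply, if_neg hne]
    · intro hn
      exact absurd (Finset.mem_filter.2 ⟨Finset.mem_Ioc.2 h, hp⟩) hn
  · refine Finset.sum_eq_zero fun q hq => ?_
    rw [(Finset.mem_filter.1 hq).2.factorization, Finsupp.single_apply, if_neg]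
    rintro rfl
    exact h (Finset.mem_Ioc.1 (Finset.mem_filter.1 hq).1)

theorem dvd_main (n : ℕ) :
    QQ n * ((3 * n)! * ((2 * n)! * (2 * n)!)) ∣ (6 * n)! * n ! := by
  have f3 := (Nat.factorial_ne_zero (3 * n))
  have f2 := (Nat.factorial_ne_zero (2 * n))
  have f6 := (Nat.factorial_ne_zero (6 * n))
  have f1 := (Nat.factorial_ne_zero n)
  have hQ := (QQ_pos n).ne'
  rw [← Nat.factorization_prime_le_iff_dvd
    (mul_ne_zero hQ (mul_ne_zero f3 (mul_ne_zero f2 f2))) (mul_ne_zero f6 f1)]
  intro p hp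
  rw [Nat.factorization_mul hQ (mul_ne_zero f3 (mul_ne_zero f2 f2)),
    Nat.factorization_mul f3 (mul_ne_zero f2 f2), Nat.factorization_mul f2 f2,
    Nat.factorization_mul f6 f1]
  simp only [Finsupp.add_apply]
  set b := Nat.log p (6 * n) + 2 with hb
  have hlog : ∀ m, m ≤ 6 * n → Nat.log p m < b := fun m hm =>
    lt_of_le_of_lt (Nat.log_mono_right hm) (by omega)
  rw [Nat.factorization_factorial hp (hlog (3 * n) (by omega)),
    Nat.factorization_factorial hp (hlog (2 * n) (by omega)),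
    Nat.factorization_factorial hp (hlog (6 * n) (by omega)),
    Nat.factorization_factorial hp (hlog n (by omega)), QQ_fact n p hp]
  have h1 : (if 2 * n < p ∧ p ≤ 6 * n then 1 else 0) =
      ∑ i ∈ Finset.Ico 1 b, if i = 1 then (if 2 * n < p ∧ p ≤ 6 * n then 1 else 0) else 0 := by
    rw [Finset.sum_ite_eq' (Finset.Ico 1 b) 1, if_pos (Finset.mem_Ico.2 ⟨le_rfl, by omega⟩)]
  rw [h1, ← Finset.sum_add_distrib, ← Finset.sum_add_distrib, ← Finset.sum_add_distrib,
    ← Finset.sum_add_distrib]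
  refine Finset.sum_le_sum fun i hi => ?_
  have hq : 0 < p ^ i := pow_pos hp.pos i
  have h2 := floor_ineq n (p ^ i) hq
  by_cases hi1 : i = 1
  · subst hi1
    rw [if_pos rfl]
    split_ifs with h
    · have h3 := floor_ineq' n p h.1 h.2
      rw [pow_one] at *
      omega
    · omega
  · rw [if_neg hi1]
    omega

theorem QQ_le (n : ℕ) (hn : 0 < n) : QQ n ≤ 2 * n * 108 ^ n := by
  have h0 := Nat.le_of_dvd (Nat.mul_pos (Nat.factorial_pos _) (Nat.factorial_pos _)) (dvd_main n)
  have e6 : (6 * n)! = (6 * n).choose (3 * n) * (3 * n)! * (3 * n)! := by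
    have := Nat.choose_mul_factorial_mul_factorial (show 3 * n ≤ 6 * n by omega)
    rw [show 6 * n - 3 * n = 3 * n by omega] at this
    exact this.symm
  have e3 : (3 * n)! = (3 * n).choose n * n ! * (2 * n)! := by
    have := Nat.choose_mul_factorial_mul_factorial (show n ≤ 3 * n by omega)
    rw [show 3 * n - n = 2 * n by omega] at this
    exact this.symm
  have e2 : (2 * n)! = Nat.centralBinom n * n ! * n ! := by
    have := Nat.choose_mul_factorial_mul_factorial (show n ≤ 2 * n by omega)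
    rw [show 2 * n - n = n by omega] at this
    rw [Nat.centralBinom_eq_two_mul_choose]
    exact this.symm
  have h1 : QQ n * Nat.centralBinom n ≤ (6 * n).choose (3 * n) * (3 * n).choose n := by
    have hpos : 0 < (3 * n)! * ((2 * n)! * (n ! * n !)) := by positivity
    refine Nat.le_of_mul_le_mul_right ?_ hpos
    calc QQ n * Nat.centralBinom n * ((3 * n)! * ((2 * n)! * (n ! * n !)))
        = QQ n * ((3 * n)! * ((2 * n)! * (Nat.centralBinom n * n ! * n !))) := by ring
      _ = QQ n * ((3 * n)! * ((2 * n)! * (2 * n)!)) := by rw [← e2]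
      _ ≤ (6 * n)! * n ! := h0
      _ = (6 * n).choose (3 * n) * (3 * n)! * (3 * n)! * n ! := by rw [← e6]
      _ = (6 * n).choose (3 * n) * (3 * n)! * ((3 * n).choose n * n ! * (2 * n)!) * n ! := by
          rw [← e3]
      _ = (6 * n).choose (3 * n) * (3 * n).choose n * ((3 * n)! * ((2 * n)! * (n ! * n !))) := by
          ring
  have c1 : (6 * n).choose (3 * n) ≤ 64 ^ n := by
    refine (Nat.choose_le_two_pow (6 * n) (3 * n)).trans ?_
    rw [pow_mul]; norm_num
  have c2 : (3 * n).choose n * 4 ^ n ≤ 27 ^ n := by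
    have h2 := add_pow 1 2 (3 * n)
    have h3 : 1 ^ n * 2 ^ (3 * n - n) * (3 * n).choose n ≤ (1 + 2) ^ (3 * n) := by
      rw [h2]
      exact Finset.single_le_sum (f := fun m => 1 ^ m * 2 ^ (3 * n - m) * (3 * n).choose m)
        (fun i _ => Nat.zero_le _) (Finset.mem_range.2 (by omega))
    rw [show 3 * n - n = 2 * n by omega, one_pow, one_mul, pow_mul, pow_mul] at h3
    norm_num at h3
    rw [mul_comm]
    exact h3
  have c3 := Nat.four_pow_le_two_mul_self_mul_centralBinom n hn
  have h4 : QQ n * (4 ^ n * 4 ^ n) ≤ 2 * n * 108 ^ n * (4 ^ n * 4 ^ n) := by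
    calc QQ n * (4 ^ n * 4 ^ n) ≤ QQ n * ((2 * n * Nat.centralBinom n) * 4 ^ n) :=
          Nat.mul_le_mul_left _ (Nat.mul_le_mul_right _ c3)
      _ = 2 * n * (QQ n * Nat.centralBinom n) * 4 ^ n := by ring
      _ ≤ 2 * n * ((6 * n).choose (3 * n) * (3 * n).choose n) * 4 ^ n :=
          Nat.mul_le_mul_right _ (Nat.mul_le_mul_left _ h1)
      _ = 2 * n * (6 * n).choose (3 * n) * ((3 * n).choose n * 4 ^ n) := by ring
      _ ≤ 2 * n * 64 ^ n * 27 ^ n :=
          Nat.mul_le_mul (Nat.mul_le_mul_left _ c1) c2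
      _ = 2 * n * 108 ^ n * (4 ^ n * 4 ^ n) := by
          have e : 64 ^ n * 27 ^ n = 108 ^ n * (4 ^ n * 4 ^ n) := by
            rw [← mul_pow, ← mul_pow, ← mul_pow]
            norm_num
          rw [mul_assoc (2 * n) (64 ^ n), e, ← mul_assoc (2 * n)]
  exact Nat.le_of_mul_le_mul_right h4 (by positivity)

theorem theta_step (n : ℕ) (hn : 0 < n) : Chebyshev.theta ((6 * n : ℕ) : ℝ) ≤
    Chebyshev.theta ((2 * n : ℕ) : ℝ) + Real.log (2 * n) + n * Real.log 108 := by
  have h1 : Chebyshev.theta ((6 * n : ℕ) : ℝ) - Chebyshev.theta ((2 * n : ℕ) : ℝ) =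
      Real.log (QQ n) := by
    rw [Chebyshev.theta_eq_sum_primesLE_log, Chebyshev.theta_eq_sum_primesLE_log, QQ,
      Nat.cast_prod, Real.log_prod (fun p hp =>
        Nat.cast_ne_zero.2 (Finset.mem_filter.1 hp).2.ne_zero), sub_eq_iff_eq_add]
    have hd : (Nat.primesLE (6 * n)) =
        (Ioc (2 * n) (6 * n)).filter Nat.Prime ∪ Nat.primesLE (2 * n) := by
      ext p
      simp only [Finset.mem_union, Finset.mem_filter, Finset.mem_Ioc, Nat.mem_primesLE]
      constructor
      · rintro ⟨h1, h2⟩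
        by_cases h : 2 * n < p
        · exact Or.inl ⟨⟨h, h1⟩, h2⟩
        · exact Or.inr ⟨by omega, h2⟩
      · rintro (⟨⟨h1, h2⟩, h3⟩ | ⟨h1, h2⟩)
        · exact ⟨h2, h3⟩
        · exact ⟨by omega, h2⟩
    rw [hd, Finset.sum_union]
    rw [Finset.disjoint_left]
    intro p h1 h2
    rw [Finset.mem_filter, Finset.mem_Ioc] at h1
    rw [Nat.mem_primesLE] at h2
    omega
  have h2 : Real.log (QQ n) ≤ Real.log (2 * n) + n * Real.log 108 := by
    have h3 : (QQ n : ℝ) ≤ 2 * n * 108 ^ n := by exact_mod_cast QQ_le n hn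
    have hn' : (0 : ℝ) < n := by exact_mod_cast hn
    refine (Real.log_le_log (by exact_mod_cast QQ_pos n) h3).trans ?_
    rw [Real.log_mul (by positivity) (by positivity), Real.log_pow]
  linarith

theorem log108 : Real.log 108 ≤ 4.7135 := by
  have h1 : (5 : ℝ) * Real.log 108 ≤ 34 * Real.log 2 := by
    have e1 : (5 : ℝ) * Real.log 108 = Real.log (108 ^ 5) := by rw [Real.log_pow]; norm_num
    have e2 : (34 : ℝ) * Real.log 2 = Real.log (2 ^ 34) := by rw [Real.log_pow]; norm_num
    rw [e1, e2]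
    exact Real.log_le_log (by norm_num) (by norm_num)
  have h2 := Real.log_two_lt_d9
  linarith

theorem log_lin (x : ℝ) (hx : 0 < x) : Real.log x ≤ 6 + x / 1024 := by
  have h1 := Real.log_le_sub_one_of_pos (show 0 < x / 1024 by positivity)
  rw [Real.log_div hx.ne' (by norm_num)] at h1
  have e2 : Real.log 1024 = 10 * Real.log 2 := by
    rw [show (1024 : ℝ) = 2 ^ 10 by norm_num, Real.log_pow]; norm_num
  have h2 := Real.log_two_lt_d9
  linarith

theorem theta_bound (k : ℕ) : Chebyshev.theta (k : ℝ) ≤ 1.2 * k + 1400 := by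
  induction k using Nat.strong_induction_on with
  | _ k ih =>
    by_cases hk : k < 1000
    · have h1 := Chebyshev.theta_le_log4_mul_x (show (0 : ℝ) ≤ k by positivity)
      have h2 : Real.log 4 ≤ 1.4 := by
        have e : Real.log 4 = 2 * Real.log 2 := by
          rw [show (4 : ℝ) = 2 ^ 2 by norm_num, Real.log_pow]; norm_num
        have := Real.log_two_lt_d9
        linarith
      have h3 : (k : ℝ) ≤ 1000 := by exact_mod_cast hk.le
      have h4 : (0 : ℝ) ≤ k := by positivity
      nlinarith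
    · push Not at hk
      set n := k / 6 + 1 with hn
      have hn1 : 6 * (k / 6) ≤ k := Nat.mul_div_le k 6
      have hk1 : k ≤ 6 * n := by omega
      have hlt : 2 * n < k := by omega
      have h1 : Chebyshev.theta (k : ℝ) ≤ Chebyshev.theta ((6 * n : ℕ) : ℝ) :=
        Chebyshev.theta_mono (by exact_mod_cast hk1)
      have h2 := theta_step n (by omega)
      have h3 := ih (2 * n) hlt
      have h4 : (n : ℝ) ≤ k / 6 + 1 := by
        have : ((6 * (k / 6) : ℕ) : ℝ) ≤ k := by exact_mod_cast hn1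
        push_cast at this
        rw [hn]
        push_cast
        linarith
      have h5 := log_lin (2 * n) (by rw [hn]; push_cast; positivity)
      have h6 := log108
      have h7 : (n : ℝ) * Real.log 108 ≤ (k / 6 + 1) * 4.7135 :=
        mul_le_mul h4 h6 (Real.log_nonneg (by norm_num)) (by positivity)
      have h8 : (1000 : ℝ) ≤ k := by exact_mod_cast hk
      push_cast at h1 h2 h3
      linarith

end T1

theorem stT1 : StT1 := by
  rw [StT1]
  filter_upwards [eventually_ge_atTop 28000] with k hk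
  have h1 := T1.theta_bound k
  have h2 : (28000 : ℝ) ≤ k := by exact_mod_cast hk
  linarith

end Pool.Agent.Helper5.LP
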